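import Pool.Agent.N420.PM.Stm

/-!
# PM/CF, PM/GF: two power sums over `ZMod p` (helper519)
-/

set_option autoImplicit false

namespace Pool.Agent.N420.PM

open Finset Equiv

namespace CFx

lemma sum_lt (p : ℕ) [Fact p.Prime] (i : ℕ) (hi : i < p - 1) : ∑ x : ZMod p, x ^ i = 0 := by
  apply FiniteField.sum_pow_lt_card_sub_one
  rw [ZMod.card]
  exact hi

lemma sum_eq (p : ℕ) [Fact p.Prime] : ∑ x : ZMod p, x ^ (p - 1) = -1 := by
  have hp : p.Prime := Fact.out
  have h1 : ∀ x : ZMod p, x ^ (p - 1) = if x = 0 then 0 else 1 := by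
    intro x
    split_ifs with h
    · rw [h, zero_pow]
      have := hp.two_le
      omega
    · exact ZMod.pow_card_sub_one_eq_one h
  simp_rw [h1]
  rw [Finset.sum_ite]
  simp only [sum_const_zero, sum_const, nsmul_eq_mul, mul_one, zero_add]
  rw [Finset.filter_ne', Finset.card_erase_of_mem (Finset.mem_univ _), Finset.card_univ, ZMod.card,
    Nat.cast_sub hp.one_le]
  simp

lemma Gf_eq (p : ℕ) [Fact p.Prime] (f : ZMod p) (m n : ℕ) :
    Gf f m n = ∑ i ∈ range n, (∑ x : ZMod p, x ^ (m + i)) * (f ^ (n - i) * (n.choose i : ZMod p)) := by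
  unfold Gf
  simp_rw [Finset.sum_mul]
  rw [Finset.sum_comm]
  refine Finset.sum_congr rfl fun x _ => ?_
  rw [add_pow, Finset.sum_range_succ]
  simp only [Nat.sub_self, pow_zero, mul_one, Nat.choose_self, Nat.cast_one, add_sub_cancel_right]
  rw [Finset.mul_sum]
  refine Finset.sum_congr rfl fun i _ => ?_
  rw [pow_add]
  ring

end CFx

theorem t_GF : S_GF := by
  intro p hp f m n h2
  have hpp : p.Prime := Fact.out
  constructor
  · intro h
    rw [CFx.Gf_eq]
    refine Finset.sum_eq_zero fun i hi => ?_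
    rw [Finset.mem_range] at hi
    rw [CFx.sum_lt p _ (by omega), zero_mul]
  · intro h
    rw [CFx.Gf_eq]
    cases n with
    | zero => simp
    | succ n =>
      rw [Finset.sum_range_succ, Finset.sum_eq_zero, zero_add]
      · have e : m + n = p - 1 := by omega
        rw [e, CFx.sum_eq, Nat.choose_succ_self_right]
        have e2 : n + 1 - n = 1 := by omega
        rw [e2]
        push_cast
        ring
      · intro i hi
        rw [Finset.mem_range] at hi
        rw [CFx.sum_lt p _ (by omega), zero_mul]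

theorem t_CF : S_CF := by
  intro p hp d m n h2
  have e : Cf d m n = Gf d m n - Gf (-d) m n := by
    unfold Cf Gf
    rw [← Finset.sum_sub_distrib]
    refine Finset.sum_congr rfl fun a _ => ?_
    rw [Fintype.sum_bool]
    simp only [sg, cond_true, cond_false, one_mul, neg_mul]
    ring
  obtain ⟨h3, h4⟩ := t_GF p d m n h2
  obtain ⟨h5, h6⟩ := t_GF p (-d) m n h2
  constructor
  · intro h
    rw [e, h3 h, h5 h, sub_zero]
  · intro h
    rw [e, h4 h, h6 h]
    ring

end Pool.Agent.N420.PM
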