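import Pool.Agent.N420.PM.Stm

/-! # CNTA: the number of good permutations is prime to `p` -/

set_option autoImplicit false

namespace Pool.Agent.N420.PM

open Finset Equiv

namespace CNTAx

open Classical in
/-- the vectors with entries in `V` which are different also up to sign -/
noncomputable def AA (p e : ℕ) [NeZero p] (V : Finset (ZMod p)) : Finset (Fin e → ZMod p) :=
  univ.filter fun ξ => (∀ j, ξ j ∈ V) ∧ ∀ i j, i ≠ j → ξ i ≠ ξ j ∧ ξ i ≠ -ξ j

theorem mem_AA {p e : ℕ} [NeZero p] {V : Finset (ZMod p)} {ξ : Fin e → ZMod p} :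
    ξ ∈ AA p e V ↔ (∀ j, ξ j ∈ V) ∧ ∀ i j, i ≠ j → ξ i ≠ ξ j ∧ ξ i ≠ -ξ j := by
  simp [AA]

theorem neg_ne {p : ℕ} [Fact p.Prime] (hp : p ≠ 2) {v : ZMod p} (hv : v ≠ 0) : v ≠ -v := by
  intro h
  apply hv
  have h1 : (2 : ZMod p) * v = 0 := by
    rw [two_mul]; nth_rewrite 1 [h]; exact neg_add_cancel v
  rcases mul_eq_zero.1 h1 with h2 | h2
  · exfalso
    have h3 : ((2 : ℕ) : ZMod p) = 0 := by exact_mod_cast h2
    rw [ZMod.natCast_eq_zero_iff] at h3
    exact hp ((Nat.prime_dvd_prime_iff_eq (Fact.out : p.Prime) Nat.prime_two).1 h3)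
  · exact h2

theorem card_AA {p : ℕ} [Fact p.Prime] (hp : p ≠ 2) (e : ℕ) : ∀ V : Finset (ZMod p),
    (∀ v ∈ V, v ≠ 0 ∧ -v ∈ V) → (AA p e V).card = ∏ j ∈ range e, (V.card - 2 * j) := by
  induction e with
  | zero =>
    intro V _
    rw [range_zero, prod_empty, card_eq_one]
    refine ⟨fun j => j.elim0, ?_⟩
    ext ξ
    rw [mem_AA, mem_singleton]
    constructor
    · intro _; funext j; exact j.elim0
    · intro _; exact ⟨fun j => j.elim0, fun j => j.elim0⟩
  | succ e ih =>
    intro V hV
    have hmem : ∀ (v : ZMod p) (ζ : Fin e → ZMod p),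
        (Fin.cons v ζ : Fin (e + 1) → ZMod p) ∈ AA p (e + 1) V ↔
          v ∈ V ∧ ζ ∈ AA p e ((V.erase v).erase (-v)) := by
      intro v ζ
      rw [mem_AA, mem_AA]
      constructor
      · rintro ⟨h1, h2⟩
        refine ⟨by simpa using h1 0, fun j => ?_, fun i j hij => ?_⟩
        · have h3 := h2 j.succ 0 (Fin.succ_ne_zero j)
          rw [Fin.cons_succ, Fin.cons_zero] at h3
          rw [mem_erase, mem_erase]
          exact ⟨h3.2, h3.1, by simpa using h1 j.succ⟩
        · have h3 := h2 i.succ j.succ (fun h => hij (Fin.succ_injective _ h))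
          rwa [Fin.cons_succ, Fin.cons_succ] at h3
      · rintro ⟨h1, h2, h3⟩
        have h4 : ∀ j, ζ j ∈ V ∧ ζ j ≠ v ∧ ζ j ≠ -v := fun j => by
          have := h2 j
          rw [mem_erase, mem_erase] at this
          exact ⟨this.2.2, this.2.1, this.1⟩
        constructor
        · intro j
          refine Fin.cases ?_ (fun j => ?_) j
          · simpa using h1
          · simpa using (h4 j).1
        · intro i j
          refine Fin.cases ?_ (fun i => ?_) i
          · refine Fin.cases ?_ (fun j => ?_) j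
            · intro h; exact absurd rfl h
            · intro _
              rw [Fin.cons_zero, Fin.cons_succ]
              refine ⟨fun h => (h4 j).2.1 h.symm, fun h => (h4 j).2.2 ?_⟩
              rw [h, neg_neg]
          · refine Fin.cases ?_ (fun j => ?_) j
            · intro _
              rw [Fin.cons_zero, Fin.cons_succ]
              exact (h4 i).2
            · intro hij
              rw [Fin.cons_succ, Fin.cons_succ]
              exact h3 i j (fun h => hij (by rw [h]))
    have hcard : (AA p (e + 1) V).card =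
        ∑ v ∈ V, (AA p e ((V.erase v).erase (-v))).card := by
      rw [← card_sigma]
      refine card_bij' (fun ξ _ => (⟨ξ 0, Fin.tail ξ⟩ : Σ _ : ZMod p, (Fin e → ZMod p)))
        (fun x _ => Fin.cons x.1 x.2) ?_ ?_ ?_ ?_
      · intro ξ hξ
        rw [mem_sigma]
        rw [← Fin.cons_self_tail ξ] at hξ
        exact (hmem _ _).1 hξ
      · intro x hx
        rw [mem_sigma] at hx
        exact (hmem _ _).2 hx
      · intro ξ _
        exact Fin.cons_self_tail ξ
      · intro x _
        simp
    rw [hcard]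
    have hterm : ∀ v ∈ V, (AA p e ((V.erase v).erase (-v))).card =
        ∏ j ∈ range e, (V.card - 2 * (j + 1)) := by
      intro v hv
      obtain ⟨hv0, hvn⟩ := hV v hv
      have hne := neg_ne hp hv0
      have hc : ((V.erase v).erase (-v)).card = V.card - 2 := by
        rw [card_erase_of_mem (mem_erase.2 ⟨hne.symm, hvn⟩), card_erase_of_mem hv]
        omega
      rw [ih _ (fun w hw => ?_), hc]
      · refine prod_congr rfl fun j _ => ?_
        omega
      · rw [mem_erase, mem_erase] at hw
        obtain ⟨h1, h2, h3⟩ := hw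
        obtain ⟨h4, h5⟩ := hV w h3
        refine ⟨h4, ?_⟩
        rw [mem_erase, mem_erase]
        refine ⟨fun h => h2 (neg_injective h), fun h => h1 ?_, h5⟩
        rw [← h, neg_neg]
    rw [sum_congr rfl hterm, sum_const, smul_eq_mul, prod_range_succ', mul_comm]
    simp

/-- the complement of `0` and the entries up to sign -/
def Wn {p e : ℕ} [NeZero p] (ξ : Fin e → ZMod p) : Finset (ZMod p) :=
  (((univ.image ξ) ∪ (univ.image fun j => -ξ j)) ∪ {0})ᶜ

theorem mem_Wn {p e : ℕ} [NeZero p] {ξ : Fin e → ZMod p} {v : ZMod p} :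
    v ∈ Wn ξ ↔ v ≠ 0 ∧ ∀ j, v ≠ ξ j ∧ v ≠ -ξ j := by
  rw [Wn, mem_compl, mem_union, mem_union, mem_image, mem_image, mem_singleton]
  constructor
  · intro h
    push Not at h
    exact ⟨h.2, fun j => ⟨fun h' => h.1.1 j (mem_univ _) h'.symm,
      fun h' => h.1.2 j (mem_univ _) h'.symm⟩⟩
  · rintro ⟨h1, h2⟩ ((⟨j, -, hj⟩ | ⟨j, -, hj⟩) | h)
    · exact (h2 j).1 hj.symm
    · exact (h2 j).2 hj.symm
    · exact h1 h

theorem card_Wn {p e : ℕ} [Fact p.Prime] (hp : p ≠ 2) {ξ : Fin e → ZMod p}
    (hξ : ξ ∈ AA p e (univ.erase 0)) : (Wn ξ).card = p - (2 * e + 1) := by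
  rw [mem_AA] at hξ
  obtain ⟨h1, h2⟩ := hξ
  have h0 : ∀ j, ξ j ≠ 0 := fun j => (mem_erase.1 (h1 j)).1
  have hinj : Function.Injective ξ := by
    intro i j hij
    by_contra hne
    exact (h2 i j hne).1 hij
  have hinj' : Function.Injective (fun j => -ξ j) := fun i j hij => hinj (neg_injective hij)
  have hd1 : Disjoint (univ.image ξ) (univ.image fun j => -ξ j) := by
    rw [disjoint_left]
    intro v hv hv'
    rw [mem_image] at hv hv'
    obtain ⟨i, -, rfl⟩ := hv
    obtain ⟨j, -, hj⟩ := hv'
    by_cases hij : i = j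
    · subst hij
      exact neg_ne hp (h0 i) hj.symm
    · exact (h2 i j hij).2 hj.symm
  have hd2 : Disjoint ((univ.image ξ) ∪ (univ.image fun j => -ξ j)) {0} := by
    rw [disjoint_singleton_right, mem_union, mem_image, mem_image]
    rintro (⟨j, -, hj⟩ | ⟨j, -, hj⟩)
    · exact h0 j hj
    · exact h0 j (neg_eq_zero.1 hj)
  rw [Wn, card_compl, ZMod.card, card_union_of_disjoint hd2, card_union_of_disjoint hd1,
    card_image_of_injective _ hinj, card_image_of_injective _ hinj', card_singleton,
    card_univ, Fintype.card_fin]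
  congr 1
  omega

open Classical in
/-- the injections into the complement -/
noncomputable def BB (p N e : ℕ) [NeZero p] (ξ : Fin e → ZMod p) : Finset (Fin N → ZMod p) :=
  univ.filter fun α => Function.Injective α ∧ ∀ i, α i ∈ Wn ξ

theorem card_BB {p N e : ℕ} [NeZero p] (ξ : Fin e → ZMod p) (h : (Wn ξ).card = N) :
    (BB p N e ξ).card = N.factorial := by
  have h1 : Fintype.card (Fin N ↪ Wn ξ) = N.factorial := by
    rw [Fintype.card_embedding_eq, Fintype.card_coe, h, Fintype.card_fin, Nat.descFactorial_self]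
  rw [← h1, ← Finset.card_univ]
  symm
  refine card_bij (fun φ _ => fun i => (φ i : ZMod p)) ?_ ?_ ?_
  · intro φ _
    rw [BB, mem_filter]
    exact ⟨mem_univ _, fun i j hij => φ.injective (Subtype.ext hij), fun i => (φ i).2⟩
  · intro φ _ ψ _ hφψ
    ext i
    exact congrFun hφψ i
  · intro α hα
    rw [BB, mem_filter] at hα
    exact ⟨⟨fun i => ⟨α i, hα.2.2 i⟩, fun i j hij => hα.2.1 (congrArg Subtype.val hij)⟩,
      mem_univ _, rfl⟩

/-- the bijection given by a pair -/
def FF {p N e : ℕ} (ξ : Fin e → ZMod p) (α : Fin N → ZMod p) : Ix N e → ZMod p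
  | none => 0
  | some (Sum.inl i) => α i
  | some (Sum.inr (j, false)) => ξ j
  | some (Sum.inr (j, true)) => -ξ j

theorem FF_inj {p N e : ℕ} [Fact p.Prime] (hp : p ≠ 2) {ξ : Fin e → ZMod p}
    {α : Fin N → ZMod p} (hξ : ξ ∈ AA p e (univ.erase 0)) (hα : α ∈ BB p N e ξ) :
    Function.Injective (FF ξ α) := by
  rw [mem_AA] at hξ
  rw [BB, mem_filter] at hα
  obtain ⟨h1, h2⟩ := hξ
  obtain ⟨-, h3, h4⟩ := hα
  have h0 : ∀ j, ξ j ≠ 0 := fun j => (mem_erase.1 (h1 j)).1
  have h5 : ∀ i, α i ≠ 0 ∧ ∀ j, α i ≠ ξ j ∧ α i ≠ -ξ j := fun i => mem_Wn.1 (h4 i)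
  have hinj : ∀ i j, ξ i = ξ j → i = j := by
    intro i j hij
    by_contra hne
    exact (h2 i j hne).1 hij
  have hneg : ∀ i j, ξ i ≠ -ξ j := by
    intro i j
    by_cases hij : i = j
    · subst hij
      exact neg_ne hp (h0 i)
    · exact (h2 i j hij).2
  rintro (_ | (i | ⟨i, _ | _⟩)) (_ | (j | ⟨j, _ | _⟩)) hij
  · rfl
  · exact absurd hij.symm (h5 j).1
  · exact absurd hij.symm (h0 j)
  · exact absurd (neg_eq_zero.1 hij.symm) (h0 j)
  · exact absurd hij (h5 i).1
  · rw [h3 hij]
  · exact absurd hij ((h5 i).2 j).1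
  · exact absurd hij ((h5 i).2 j).2
  · exact absurd hij (h0 i)
  · exact absurd hij.symm ((h5 j).2 i).1
  · rw [hinj i j hij]
  · exact absurd hij (hneg i j)
  · exact absurd (neg_eq_zero.1 hij) (h0 i)
  · exact absurd hij.symm ((h5 j).2 i).2
  · exact absurd hij.symm (hneg j i)
  · rw [hinj i j (neg_injective hij)]

theorem card_good {p N e : ℕ} [Fact p.Prime] (q : Ix N e ≃ ZMod p) (hp : p ≠ 2)
    (hN : N + 2 * e + 1 = p) : Nat.card {σ : Perm (Ix N e) // Good q σ} =
      (AA p e (univ.erase 0)).card * N.factorial := by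
  classical
  have hcard : ((AA p e (univ.erase 0)).sigma fun ξ => BB p N e ξ).card =
      (AA p e (univ.erase 0)).card * N.factorial := by
    rw [card_sigma, sum_congr rfl (fun ξ hξ => card_BB ξ (by rw [card_Wn hp hξ]; omega)),
      sum_const, smul_eq_mul]
  rw [← hcard, Nat.card_eq_fintype_card, Fintype.card_subtype]
  have hcI : Fintype.card (Ix N e) = Fintype.card (ZMod p) := Fintype.card_congr q
  refine card_bij (fun σ _ => (⟨fun j => q (σ (some (Sum.inr (j, false)))),
    fun i => q (σ (some (Sum.inl i)))⟩ : Σ _ : (Fin e → ZMod p), (Fin N → ZMod p))) ?_ ?_ ?_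
  · intro σ hσ
    obtain ⟨hg1, hg2⟩ := (mem_filter.1 hσ).2
    have hi : Function.Injective (fun x => q (σ x)) := q.injective.comp σ.injective
    rw [mem_sigma, mem_AA, BB, mem_filter]
    refine ⟨⟨fun j => ?_, fun i j hij => ⟨fun h => ?_, fun h => ?_⟩⟩, mem_univ _, fun i j hij => ?_,
      fun i => ?_⟩
    · rw [mem_erase]
      refine ⟨fun h => ?_, mem_univ _⟩
      have h' : q (σ (some (Sum.inr (j, false)))) = 0 := h
      have h1 : (fun x => q (σ x)) (some (Sum.inr (j, false))) = (fun x => q (σ x)) none :=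
        h'.trans hg1.symm
      have := hi h1
      simp at this
    · have := hi (show (fun x => q (σ x)) (some (Sum.inr (i, false))) =
        (fun x => q (σ x)) (some (Sum.inr (j, false))) from h)
      simp at this
      exact hij this
    · simp only at h
      rw [← hg2 j] at h
      have := hi (show (fun x => q (σ x)) (some (Sum.inr (i, false))) =
        (fun x => q (σ x)) (some (Sum.inr (j, true))) from h)
      simp at this
    · have := hi (show (fun x => q (σ x)) (some (Sum.inl i)) =
        (fun x => q (σ x)) (some (Sum.inl j)) from hij)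
      simpa using this
    · rw [mem_Wn]
      refine ⟨fun h => ?_, fun j => ⟨fun h => ?_, fun h => ?_⟩⟩
      · have h' : q (σ (some (Sum.inl i))) = 0 := h
        have h1 : (fun x => q (σ x)) (some (Sum.inl i)) = (fun x => q (σ x)) none :=
          h'.trans hg1.symm
        have := hi h1
        simp at this
      · have := hi (show (fun x => q (σ x)) (some (Sum.inl i)) =
          (fun x => q (σ x)) (some (Sum.inr (j, false))) from h)
        simp at this
      · simp only at h
        rw [← hg2 j] at h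
        have := hi (show (fun x => q (σ x)) (some (Sum.inl i)) =
          (fun x => q (σ x)) (some (Sum.inr (j, true))) from h)
        simp at this
  · intro σ hσ τ hτ h
    obtain ⟨hg1, hg2⟩ := (mem_filter.1 hσ).2
    obtain ⟨hg3, hg4⟩ := (mem_filter.1 hτ).2
    obtain ⟨h1, h2⟩ := Sigma.mk.inj_iff.1 h
    have h2' := eq_of_heq h2
    apply Equiv.ext
    intro x
    apply q.injective
    rcases x with _ | (i | ⟨j, _ | _⟩)
    · rw [hg1, hg3]
    · exact congrFun h2' i
    · exact congrFun h1 j
    · rw [hg2, hg4]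
      congr 1
      exact congrFun h1 j
  · rintro ⟨ξ, α⟩ hx
    rw [mem_sigma] at hx
    have hinj := FF_inj hp hx.1 hx.2
    have hbij : Function.Bijective (FF ξ α) :=
      (Fintype.bijective_iff_injective_and_card _).2 ⟨hinj, hcI⟩
    refine ⟨(Equiv.ofBijective _ hbij).trans q.symm, ?_, ?_⟩
    · rw [mem_filter]
      refine ⟨mem_univ _, ?_, fun j => ?_⟩
      · simp [FF]
      · simp [FF]
    · simp [FF]

end CNTAx

open CNTAx in
theorem t_CNTA : S_CNTA := by
  intro p N e _ q hp hN
  have hpp : p.Prime := Fact.out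
  rw [card_good q hp hN, card_AA hp e _ (fun v hv => ?_)]
  · have hc : (univ.erase (0 : ZMod p)).card = p - 1 := by
      rw [card_erase_of_mem (mem_univ _), card_univ, ZMod.card]
    rw [hc]
    intro hd
    rcases (Nat.Prime.dvd_mul hpp).1 hd with h | h
    · obtain ⟨j, hj, hdj⟩ := (Prime.dvd_finsetProd_iff hpp.prime _).1 h
      rw [mem_range] at hj
      have h1 := Nat.le_of_dvd (by omega) hdj
      omega
    · have := (Nat.Prime.dvd_factorial hpp).1 h
      omega
  · rw [mem_erase] at hv ⊢
    exact ⟨hv.1, fun h => hv.1 (neg_eq_zero.1 h), mem_univ _⟩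

end Pool.Agent.N420.PM
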