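import Pool.Agent.N420.PM.Stm

/-! # PM/CNTB: the number of partners of a good permutation is `2 ^ e * e!` (helper383) -/

set_option autoImplicit false

namespace Pool.Agent.N420.PM

open Finset Equiv

namespace CNTBx

/-- the permutation of `Bool` which takes `false` to `c` -/
def xe (c : Bool) : Perm Bool := bif c then Equiv.boolNot else Equiv.refl Bool

lemma xe_false (c : Bool) : xe c false = c := by cases c <;> rfl

lemma xe_true (c : Bool) : xe c true = !c := by cases c <;> rfl

/-- the permutations which fix the outer points and commute with the flip -/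
def kp (N : ℕ) {e : ℕ} (x : Perm (Fin e) × (Fin e → Bool)) : Perm (Ix N e) :=
  Equiv.optionCongr (Equiv.sumCongr (Equiv.refl (Fin N)) (Equiv.prodShear x.1 fun j => xe (x.2 j)))

lemma kp_none {N e : ℕ} (x : Perm (Fin e) × (Fin e → Bool)) : kp N x none = none := rfl

lemma kp_inl {N e : ℕ} (x : Perm (Fin e) × (Fin e → Bool)) (i : Fin N) :
    kp N x (some (Sum.inl i)) = some (Sum.inl i) := rfl

lemma kp_inr {N e : ℕ} (x : Perm (Fin e) × (Fin e → Bool)) (j : Fin e) (b : Bool) :
    kp N x (some (Sum.inr (j, b))) = some (Sum.inr (x.1 j, xe (x.2 j) b)) := rfl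

lemma kp_inj {N e : ℕ} : Function.Injective (kp N : Perm (Fin e) × (Fin e → Bool) → _) := by
  rintro ⟨π, c⟩ ⟨π', c'⟩ h
  have h1 : ∀ j, π j = π' j ∧ c j = c' j := by
    intro j
    have h2 := congrArg (fun κ : Perm (Ix N e) => κ (some (Sum.inr (j, false)))) h
    simp only [kp_inr, xe_false, Option.some.injEq, Sum.inr.injEq, Prod.mk.injEq] at h2
    exact h2
  refine Prod.ext (Equiv.ext fun j => (h1 j).1) (funext fun j => (h1 j).2)

/-- a permutation with these properties is one of them -/
lemma kp_surj {N e : ℕ} (κ : Perm (Ix N e)) (h0 : κ none = none)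
    (h1 : ∀ i, κ (some (Sum.inl i)) = some (Sum.inl i))
    (h2 : ∀ j j' b', κ (some (Sum.inr (j, false))) = some (Sum.inr (j', b')) →
      κ (some (Sum.inr (j, true))) = some (Sum.inr (j', !b'))) : ∃ x, kp N x = κ := by
  have h3 : ∀ j, ∃ y : Fin e × Bool, κ (some (Sum.inr (j, false))) = some (Sum.inr y) := by
    intro j
    rcases h : κ (some (Sum.inr (j, false))) with _ | i | y
    · rw [← h0] at h
      exact absurd (κ.injective h) (by simp)
    · rw [← h1] at h
      exact absurd (κ.injective h) (by simp)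
    · exact ⟨y, rfl⟩
  choose f hf using h3
  have hf2 : ∀ j, κ (some (Sum.inr (j, true))) = some (Sum.inr ((f j).1, !(f j).2)) :=
    fun j => h2 j (f j).1 (f j).2 (hf j)
  have hinj : Function.Injective fun j => (f j).1 := by
    intro j j' hjj
    have hjj' : (f j).1 = (f j').1 := hjj
    by_cases hb : (f j).2 = (f j').2
    · have h4 : f j = f j' := Prod.ext hjj' hb
      have h5 : κ (some (Sum.inr (j, false))) = κ (some (Sum.inr (j', false))) := by
        rw [hf, hf, h4]
      have h6 := κ.injective h5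
      simp only [Option.some.injEq, Sum.inr.injEq, Prod.mk.injEq] at h6
      exact h6.1
    · exfalso
      have hb' : (f j).2 = !(f j').2 := by
        cases h7 : (f j).2 <;> cases h8 : (f j').2 <;> simp_all
      have h4 : f j = ((f j').1, !(f j').2) := Prod.ext hjj' hb'
      have h5 : κ (some (Sum.inr (j, false))) = κ (some (Sum.inr (j', true))) := by
        rw [hf, hf2, h4]
      have h6 := κ.injective h5
      simp at h6
  have hbij : Function.Bijective fun j => (f j).1 := Finite.injective_iff_bijective.1 hinj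
  refine ⟨(Equiv.ofBijective _ hbij, fun j => (f j).2), Equiv.ext ?_⟩
  rintro (_ | i | ⟨j, _ | _⟩)
  · rw [kp_none, h0]
  · rw [kp_inl, h1]
  · rw [kp_inr, xe_false, hf]
    rfl
  · rw [kp_inr, xe_true, hf2]
    rfl

end CNTBx

open CNTBx in
theorem t_CNTB : S_CNTB := by
  intro p N e _ q σ _ _ hσ
  obtain ⟨hσ0, hσ1⟩ := hσ
  -- negation in terms of the indices
  obtain ⟨ρ, hρ⟩ : ∃ ρ : Perm (Ix N e), ∀ x, q (ρ x) = - q x :=
    ⟨(q.trans (Equiv.neg (ZMod p))).trans q.symm, fun x => by simp⟩
  have hflip : ∀ (j : Fin e) (b : Bool),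
      q (σ (some (Sum.inr (j, !b)))) = - q (σ (some (Sum.inr (j, b)))) := by
    intro j b
    cases b
    · exact hσ1 j
    · show q (σ (some (Sum.inr (j, false)))) = - q (σ (some (Sum.inr (j, true))))
      rw [hσ1 j, neg_neg]
  have hmem : ∀ x : Perm (Fin e) × (Fin e → Bool),
      Good q (ρ * σ * kp N x) ∧ Match q σ (ρ * σ * kp N x) := by
    intro x
    refine ⟨⟨?_, ?_⟩, ?_⟩
    · show q (ρ (σ (kp N x none))) = 0
      rw [kp_none, hρ, hσ0, neg_zero]
    · intro j
      show q (ρ (σ (kp N x _))) = - q (ρ (σ (kp N x _)))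
      rw [kp_inr, kp_inr, xe_true, xe_false, hρ, hρ, hflip]
    · intro i
      show q (ρ (σ (kp N x _))) = - q (σ _)
      rw [kp_inl, hρ]
  have hbij : Function.Bijective (fun x : Perm (Fin e) × (Fin e → Bool) =>
      (⟨ρ * σ * kp N x, hmem x⟩ : {τ : Perm (Ix N e) // Good q τ ∧ Match q σ τ})) := by
    constructor
    · intro x x' h
      have h1 : ρ * σ * kp N x = ρ * σ * kp N x' := congrArg Subtype.val h
      exact kp_inj (mul_left_cancel h1)
    · rintro ⟨τ, ⟨hτ0, hτ1⟩, hτ2⟩
      obtain ⟨κ, hκ⟩ : ∃ κ : Perm (Ix N e), κ = (ρ * σ)⁻¹ * τ := ⟨_, rfl⟩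
      have hτ : τ = ρ * σ * κ := by rw [hκ, mul_inv_cancel_left]
      have hq : ∀ x, q (τ x) = - q (σ (κ x)) := by
        intro x
        rw [hτ]
        exact hρ _
      obtain ⟨x, hx⟩ := kp_surj κ (by
          have h1 := hq none
          rw [hτ0, eq_comm, neg_eq_zero, ← hσ0] at h1
          exact σ.injective (q.injective h1)) (by
          intro i
          have h1 := hq (some (Sum.inl i))
          rw [hτ2 i, neg_inj] at h1
          exact (σ.injective (q.injective h1)).symm) (by
          intro j j' b' h1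
          have h2 := hτ1 j
          rw [hq, hq, neg_neg, h1] at h2
          have h3 : q (σ (κ (some (Sum.inr (j, true))))) = q (σ (some (Sum.inr (j', !b')))) := by
            rw [hflip, ← h2, neg_neg]
          exact σ.injective (q.injective h3))
      refine ⟨x, Subtype.ext ?_⟩
      show ρ * σ * kp N x = τ
      rw [hx, hτ]
  rw [← Nat.card_congr (Equiv.ofBijective _ hbij), Nat.card_eq_fintype_card, Fintype.card_prod,
    Fintype.card_perm, Fintype.card_fun, Fintype.card_fin, Fintype.card_bool, mul_comm]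

end Pool.Agent.N420.PM

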