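import Pool.Agent.N420.PM.Stm

/-! The core theorem from the parts. -/

set_option autoImplicit false

namespace Pool.Agent.N420.PM

open Finset Equiv

theorem t_CORE (hDET : S_DET) (hEXP : S_EXP) (hVAL : S_VAL) (hSGN : S_SGN) (hA : S_CNTA)
    (hB : S_CNTB) : S_CORE := by
  classical
  intro p N e hp hp2 hN δ d f g hd hf hg
  have hcard : Fintype.card (Ix N e) = Fintype.card (ZMod p) := by
    rw [ZMod.card]
    simp only [Fintype.card_option, Fintype.card_sum, Fintype.card_prod, Fintype.card_fin,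
      Fintype.card_bool]
    omega
  obtain ⟨q⟩ : Nonempty (Ix N e ≃ ZMod p) := ⟨Fintype.equivOfCardEq hcard⟩
  by_contra hcon
  push Not at hcon
  -- the left side vanishes
  have h0 : ∑ a : Fin N → ZMod p, ∑ b : Fin N → Bool, ∑ x : Fin e → ZMod p,
      ∑ y : Fin e → ZMod p, (∏ i, sg (b i)) *
        ((mat q f 0 a x).det * (mat q g δ (fun i => a i + sg (b i) * d i) y).det) = 0 := by
    refine Finset.sum_eq_zero fun a _ => Finset.sum_eq_zero fun b _ =>
      Finset.sum_eq_zero fun x _ => Finset.sum_eq_zero fun y _ => ?_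
    by_contra hne
    have h1 : (mat q f 0 a x).det ≠ 0 := by
      intro h
      exact hne (by rw [h]; ring)
    have h2 : (mat q g δ (fun i => a i + sg (b i) * d i) y).det ≠ 0 := by
      intro h
      exact hne (by rw [h]; ring)
    exact hcon a b x y (hDET p N e q f 0 a x h1) (hDET p N e q g δ _ y h2)
  rw [hEXP p N e q δ d f g] at h0
  set K : ZMod p := (∏ i, (-2 * d i)) * (∏ j, (- f j)) * (∏ j, (- g j)) with hK
  set s : ZMod p := -((Perm.sign (Equiv.neg (ZMod p)) : ℤ) : ZMod p) with hs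
  have hterm : ∀ σ τ : Perm (Ix N e), term q δ d f g σ τ =
      if Good q σ then (if Good q τ ∧ Match q σ τ then K * s else 0) else 0 := by
    intro σ τ
    obtain ⟨h1, h2⟩ := hVAL p N e q δ d f g σ τ hp2 hN
    by_cases hg1 : Good q σ
    · by_cases hg2 : Good q τ ∧ Match q σ τ
      · rw [if_pos hg1, if_pos hg2, h2 ⟨hg1, hg2.1, hg2.2⟩,
          hSGN p N e q σ τ hp2 hN hg1 hg2.1 hg2.2]
      · rw [if_pos hg1, if_neg hg2]
        exact h1 fun h => hg2 ⟨h.2.1, h.2.2⟩
    · rw [if_neg hg1]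
      exact h1 fun h => hg1 h.1
  have hsum : ∑ σ : Perm (Ix N e), ∑ τ : Perm (Ix N e), term q δ d f g σ τ =
      (Nat.card {σ : Perm (Ix N e) // Good q σ} : ZMod p) *
        (((2 ^ e * e.factorial : ℕ) : ZMod p) * (K * s)) := by
    have h1 : ∀ σ : Perm (Ix N e), ∑ τ : Perm (Ix N e), term q δ d f g σ τ =
        if Good q σ then ((2 ^ e * e.factorial : ℕ) : ZMod p) * (K * s) else 0 := by
      intro σ
      by_cases hg1 : Good q σ
      · rw [if_pos hg1]
        have h2 : ∀ τ : Perm (Ix N e), term q δ d f g σ τ =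
            if Good q τ ∧ Match q σ τ then K * s else 0 := by
          intro τ
          rw [hterm, if_pos hg1]
        rw [Finset.sum_congr rfl fun τ _ => h2 τ, ← Finset.sum_filter, Finset.sum_const,
          nsmul_eq_mul]
        congr 2
        rw [← hB p N e q σ hp2 hN hg1, Nat.card_eq_fintype_card, Fintype.card_subtype]
      · rw [if_neg hg1]
        refine Finset.sum_eq_zero fun τ _ => ?_
        rw [hterm, if_neg hg1]
    rw [Finset.sum_congr rfl fun σ _ => h1 σ, ← Finset.sum_filter, Finset.sum_const,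
      nsmul_eq_mul]
    congr 2
    rw [Nat.card_eq_fintype_card, Fintype.card_subtype]
  rw [hsum] at h0
  have h2 : (2 : ZMod p) ≠ 0 := by
    intro h
    have h3 : ((2 : ℕ) : ZMod p) = 0 := by exact_mod_cast h
    rw [ZMod.natCast_eq_zero_iff] at h3
    have h4 := Nat.le_of_dvd (by norm_num) h3
    have h5 := hp.out.two_le
    omega
  have hs0 : s ≠ 0 := by
    rw [hs, neg_ne_zero]
    rcases Int.units_eq_one_or (Perm.sign (Equiv.neg (ZMod p))) with h | h <;> rw [h] <;> simp
  have hK0 : K ≠ 0 := by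
    rw [hK]
    refine mul_ne_zero (mul_ne_zero ?_ ?_) ?_
    · exact Finset.prod_ne_zero_iff.2 fun i _ => mul_ne_zero (neg_ne_zero.2 h2) (hd i)
    · exact Finset.prod_ne_zero_iff.2 fun j _ => neg_ne_zero.2 (hf j)
    · exact Finset.prod_ne_zero_iff.2 fun j _ => neg_ne_zero.2 (hg j)
  have hc1 : ((Nat.card {σ : Perm (Ix N e) // Good q σ} : ℕ) : ZMod p) ≠ 0 := by
    rw [Ne, ZMod.natCast_eq_zero_iff]
    exact hA p N e q hp2 hN
  have hc2 : ((2 ^ e * e.factorial : ℕ) : ZMod p) ≠ 0 := by
    rw [Ne, ZMod.natCast_eq_zero_iff, hp.out.dvd_mul]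
    rintro (h | h)
    · have h3 := hp.out.dvd_of_dvd_pow h
      have h4 := Nat.le_of_dvd (by norm_num) h3
      have h5 := hp.out.two_le
      omega
    · rw [hp.out.dvd_factorial] at h
      omega
  exact mul_ne_zero hc1 (mul_ne_zero hc2 (mul_ne_zero hK0 hs0)) h0

end Pool.Agent.N420.PM
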