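import Pool.Agent.N420.PM.Stm

/-! Project PM, part DET (helper300). -/

set_option autoImplicit false

namespace Pool.Agent.N420.PM

namespace DETx

/-- the matrix of the row operations -/
def T (p N e : ℕ) : Ix N e → Ix N e → ZMod p
  | some (Sum.inr (j, true)), s =>
      (if s = some (Sum.inr (j, true)) then 1 else 0) - (if s = some (Sum.inr (j, false)) then 1 else 0)
  | r, s => if s = r then 1 else 0

theorem mat_eq {p N e : ℕ} (q : Ix N e → ZMod p) (f : Fin e → ZMod p) (c : ZMod p)
    (a : Fin N → ZMod p) (x : Fin e → ZMod p) :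
    mat q f c a x = Matrix.of (T p N e) * Matrix.of fun r k => pt f c a x r ^ (q k).val := by
  ext r k
  rw [Matrix.mul_apply]
  simp only [mat, Matrix.of_apply]
  rcases r with _ | r | ⟨j, _ | _⟩
  · simp [T, row, pt]
  · simp [T, row, pt]
  · simp [T, row, pt]
  · simp only [T, row, sub_mul, ite_mul, one_mul, zero_mul, Finset.sum_sub_distrib, Finset.sum_ite_eq',
      Finset.mem_univ, if_true, pt]

end DETx

theorem t_DET : S_DET := by
  intro p N e _ q f c a x h r s hrs
  by_contra hne
  apply h
  have h1 : (Matrix.of fun r k => pt f c a x r ^ (q k).val).det = 0 := by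
    apply Matrix.det_zero_of_row_eq hne
    funext k
    simp only [Matrix.of_apply]
    rw [hrs]
  rw [DETx.mat_eq, Matrix.det_mul, h1, mul_zero]

end Pool.Agent.N420.PM
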