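import Mathlib

/-! Perfect matchings of `K_{2n}` on the vertices `0, …, 2n - 1` and the lengths of their edges. -/

namespace Pool.Agent.N420.PM

/-- The length of the edge `{x, y}` of the complete graph on `0, …, 2n - 1`:
`min (|x - y|, 2n - |x - y|)`. -/
def len (n : ℕ) (x y : Fin (2 * n)) : ℕ :=
  min (Nat.dist x.val y.val) (2 * n - Nat.dist x.val y.val)

theorem len_comm (n : ℕ) (x y : Fin (2 * n)) : len n x y = len n y x := by
  unfold len
  rw [Nat.dist_comm]

/-- The length of an edge, as a function of the unordered pair. -/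
def edgeLen (n : ℕ) : Sym2 (Fin (2 * n)) → ℕ :=
  Sym2.lift ⟨len n, len_comm n⟩

/-- `F` is (the edge set of) a perfect matching of `K_{2n}`: no element of `F` is a loop, and every
vertex lies on exactly one element of `F`. -/
def IsPerfectMatching (n : ℕ) (F : Finset (Sym2 (Fin (2 * n)))) : Prop :=
  (∀ e ∈ F, ¬ e.IsDiag) ∧ ∀ v : Fin (2 * n), ∃! e, e ∈ F ∧ v ∈ e

/-- The list (multiset) of the lengths of the edges of `F`. -/
def lengths (n : ℕ) (F : Finset (Sym2 (Fin (2 * n)))) : Multiset ℕ :=
  F.val.map (edgeLen n)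

end Pool.Agent.N420.PM
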