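import Pool.Agent.N420.PM.Stm

/-!
# Project PM: the weighted sum, expanded by the Leibniz formula
-/

set_option autoImplicit false

namespace Pool.Agent.N420.PM.EXPx

open Finset Equiv Pool.Agent.N420.PM

theorem sum_pi {ι α R : Type*} [Fintype ι] [DecidableEq ι] [Fintype α] [CommSemiring R]
    (F : ι → α → R) : ∑ x : ι → α, ∏ i, F i (x i) = ∏ i, ∑ a, F i a := by
  rw [Finset.prod_univ_sum, Fintype.piFinset_univ]

theorem sum_pi2 {ι α β R : Type*} [Fintype ι] [DecidableEq ι] [Fintype α] [Fintype β]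
    [CommSemiring R] (F : ι → α → β → R) :
    ∑ x : ι → α, ∑ y : ι → β, ∏ i, F i (x i) (y i) = ∏ i, ∑ a, ∑ b, F i a b := by
  rw [← sum_pi]
  apply Finset.sum_congr rfl
  intro x _
  exact sum_pi fun i b => F i (x i) b

/-- the part of the rows of the inner edges -/
def inn {p N e : ℕ} (q : Ix N e → ZMod p) (f : Fin e → ZMod p) (σ : Perm (Ix N e)) (j : Fin e)
    (x : ZMod p) : ZMod p :=
  x ^ (q (σ (some (Sum.inr (j, false))))).val *
    ((x + f j) ^ (q (σ (some (Sum.inr (j, true))))).val -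
      x ^ (q (σ (some (Sum.inr (j, true))))).val)

theorem det_eq {p N e : ℕ} (q : Ix N e → ZMod p) (f : Fin e → ZMod p) (c : ZMod p)
    (a : Fin N → ZMod p) (x : Fin e → ZMod p) :
    (mat q f c a x).det = ∑ σ : Perm (Ix N e), ((Perm.sign σ : ℤ) : ZMod p) *
      (c ^ (q (σ none)).val * ((∏ i, a i ^ (q (σ (some (Sum.inl i)))).val) *
        ∏ j, inn q f σ j (x j))) := by
  rw [← Matrix.det_transpose, Matrix.det_apply']
  apply Finset.sum_congr rfl
  intro σ _
  congr 1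
  rw [Fintype.prod_option, Fintype.prod_sum_type, Fintype.prod_prod_type]
  simp only [Fintype.prod_bool, Matrix.transpose_apply, mat, Matrix.of_apply, row, inn]
  congr 2
  apply Finset.prod_congr rfl
  intro j _
  ring

theorem main {p N e : ℕ} [Fact p.Prime] (q : Ix N e → ZMod p) (δ : ZMod p)
    (d : Fin N → ZMod p) (f g : Fin e → ZMod p) (σ τ : Perm (Ix N e)) :
    ∑ a : Fin N → ZMod p, ∑ b : Fin N → Bool, ∑ x : Fin e → ZMod p, ∑ y : Fin e → ZMod p,
      (∏ i, sg (b i)) * ((((Perm.sign σ : ℤ) : ZMod p) *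
        ((0 : ZMod p) ^ (q (σ none)).val * ((∏ i, a i ^ (q (σ (some (Sum.inl i)))).val) *
          ∏ j, inn q f σ j (x j)))) * (((Perm.sign τ : ℤ) : ZMod p) *
        (δ ^ (q (τ none)).val *
          ((∏ i, (a i + sg (b i) * d i) ^ (q (τ (some (Sum.inl i)))).val) *
          ∏ j, inn q g τ j (y j))))) = term q δ d f g σ τ := by
  have h1 : ∀ (a : Fin N → ZMod p) (b : Fin N → Bool) (x y : Fin e → ZMod p),
      (∏ i, sg (b i)) * ((((Perm.sign σ : ℤ) : ZMod p) *
        ((0 : ZMod p) ^ (q (σ none)).val * ((∏ i, a i ^ (q (σ (some (Sum.inl i)))).val) *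
          ∏ j, inn q f σ j (x j)))) * (((Perm.sign τ : ℤ) : ZMod p) *
        (δ ^ (q (τ none)).val *
          ((∏ i, (a i + sg (b i) * d i) ^ (q (τ (some (Sum.inl i)))).val) *
          ∏ j, inn q g τ j (y j))))) =
      (((Perm.sign σ : ℤ) : ZMod p) * ((Perm.sign τ : ℤ) : ZMod p) *
        ((0 : ZMod p) ^ (q (σ none)).val * δ ^ (q (τ none)).val)) *
        ((∏ i, (sg (b i) * (a i ^ (q (σ (some (Sum.inl i)))).val *
          (a i + sg (b i) * d i) ^ (q (τ (some (Sum.inl i)))).val))) *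
        ((∏ j, inn q f σ j (x j)) * ∏ j, inn q g τ j (y j))) := by
    intro a b x y
    rw [Finset.prod_mul_distrib, Finset.prod_mul_distrib]
    ring
  simp_rw [h1, ← Finset.mul_sum, ← Finset.sum_mul]
  rw [sum_pi, sum_pi]
  rw [sum_pi2 (fun i (a : ZMod p) (b : Bool) =>
    sg b * (a ^ (q (σ (some (Sum.inl i)))).val *
      (a + sg b * d i) ^ (q (τ (some (Sum.inl i)))).val))]
  unfold term Cf Gf inn
  ring

end Pool.Agent.N420.PM.EXPx

namespace Pool.Agent.N420.PM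

open Finset Equiv EXPx

theorem t_EXP : S_EXP := by
  intro p N e _ q δ d f g
  simp_rw [det_eq, Finset.sum_mul_sum, Finset.mul_sum]
  have hswap : ∀ (F : (Fin N → ZMod p) → (Fin N → Bool) → (Fin e → ZMod p) → (Fin e → ZMod p) →
      Perm (Ix N e) → Perm (Ix N e) → ZMod p),
      ∑ a, ∑ b, ∑ x, ∑ y, ∑ σ, ∑ τ, F a b x y σ τ =
        ∑ σ, ∑ τ, ∑ a, ∑ b, ∑ x, ∑ y, F a b x y σ τ := by
    intro F
    have e1 : ∀ a b x, ∑ y, ∑ σ, ∑ τ, F a b x y σ τ = ∑ σ, ∑ τ, ∑ y, F a b x y σ τ := by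
      intro a b x
      rw [Finset.sum_comm]
      exact Finset.sum_congr rfl fun σ _ => Finset.sum_comm
    simp_rw [e1]
    have e2 : ∀ a b, ∑ x, ∑ σ, ∑ τ, ∑ y, F a b x y σ τ = ∑ σ, ∑ τ, ∑ x, ∑ y, F a b x y σ τ := by
      intro a b
      rw [Finset.sum_comm]
      exact Finset.sum_congr rfl fun σ _ => Finset.sum_comm
    simp_rw [e2]
    have e3 : ∀ a, ∑ b, ∑ σ, ∑ τ, ∑ x, ∑ y, F a b x y σ τ =
        ∑ σ, ∑ τ, ∑ b, ∑ x, ∑ y, F a b x y σ τ := by
      intro a
      rw [Finset.sum_comm]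
      exact Finset.sum_congr rfl fun σ _ => Finset.sum_comm
    simp_rw [e3]
    rw [Finset.sum_comm]
    exact Finset.sum_congr rfl fun σ _ => Finset.sum_comm
  rw [hswap]
  apply Finset.sum_congr rfl
  intro σ _
  apply Finset.sum_congr rfl
  intro τ _
  exact main q δ d f g σ τ

end Pool.Agent.N420.PM
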