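import Pool.Agent.N420.PM.Stm

/-!
# Perfect matchings of `K_{2p}`: the vertices as (parity, residue) and the length of an edge

`t_VT` and `t_LEN` (co-author: helper433).
-/

set_option autoImplicit false

namespace Pool.Agent.N420.PM

namespace LENx

theorem p_odd (p : ℕ) [Fact p.Prime] (hp : p ≠ 2) : p % 2 = 1 := by
  rcases (Fact.out : p.Prime).eq_two_or_odd with h | h
  · exact absurd h hp
  · exact h

theorem vt_mod {p : ℕ} [Fact p.Prime] (b : Bool) (u : ZMod p) :
    (vt b u).val % p = u.val := by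
  have h : u.val < p := ZMod.val_lt u
  unfold vt
  simp only
  split_ifs
  · exact Nat.mod_eq_of_lt h
  · rw [Nat.add_mod_right]; exact Nat.mod_eq_of_lt h

theorem vt_par {p : ℕ} [Fact p.Prime] (hp : p % 2 = 1) (b : Bool) (u : ZMod p) :
    (vt b u).val % 2 = 1 ↔ b = true := by
  unfold vt
  simp only
  split_ifs with h
  · exact h
  · cases b
    · simp only [Bool.false_eq_true, iff_false] at h ⊢
      omega
    · simp only [iff_true] at h ⊢
      omega

theorem vt_cast {p : ℕ} [Fact p.Prime] (b : Bool) (u : ZMod p) :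
    (((vt b u).val : ℕ) : ZMod p) = u := by
  have h := vt_mod b u
  have h1 : (((vt b u).val : ℕ) : ZMod p) = (((vt b u).val % p : ℕ) : ZMod p) := by
    rw [ZMod.natCast_mod]
  rw [h1, h, ZMod.natCast_zmod_val]

/-- the numerical core: `v + d = v' + p k`, all parities fit -/
theorem core (p v v' d : ℕ) (hp : p % 2 = 1) (hv : v < 2 * p) (hv' : v' < 2 * p)
    (hd : 1 ≤ d) (hdp : d < p) (k : ℤ) (hk : (v : ℤ) + d - v' = p * k)
    (hpar : (v + d) % 2 = v' % 2) :
    v ≠ v' ∧ min (Nat.dist v v') (2 * p - Nat.dist v v') = d := by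
  have hp0 : (0 : ℤ) < p := by omega
  have hk1 : k < 3 := by
    by_contra hcon
    push Not at hcon
    have : (p : ℤ) * 3 ≤ p * k := mul_le_mul_of_nonneg_left hcon hp0.le
    omega
  have hk2 : -2 < k := by
    by_contra hcon
    push Not at hcon
    have : (p : ℤ) * k ≤ p * (-2) := mul_le_mul_of_nonneg_left hcon hp0.le
    omega
  unfold Nat.dist
  have hk3 : k = -1 ∨ k = 0 ∨ k = 1 ∨ k = 2 := by omega
  rcases hk3 with rfl | rfl | rfl | rfl <;> omega

end LENx

open LENx in
/-- **VT** -/
theorem t_VT : S_VT := by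
  intro p _ hp
  have hpo := p_odd p hp
  rw [Fintype.bijective_iff_injective_and_card]
  refine ⟨?_, ?_⟩
  · rintro ⟨b, u⟩ ⟨b', u'⟩ h
    simp only at h
    have hu : u = u' := by
      rw [← vt_cast b u, ← vt_cast b' u', h]
    have hb : b = b' := by
      rw [Bool.eq_iff_iff, ← vt_par hpo b u, ← vt_par hpo b' u', h]
    rw [hu, hb]
  · rw [Fintype.card_prod, Fintype.card_bool, ZMod.card, Fintype.card_fin]

open LENx in
/-- **LEN** -/
theorem t_LEN : S_LEN := by
  intro p _ hp b b' u u' d hd hdp hu hbb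
  have hpo := p_odd p hp
  have hv : (vt b u).val < 2 * p := (vt b u).isLt
  have hv' : (vt b' u').val < 2 * p := (vt b' u').isLt
  have h1 := vt_par hpo b u
  have h2 := vt_par hpo b' u'
  have hc := vt_cast b u
  have hc' := vt_cast b' u'
  have hpar : ((vt b u).val + d) % 2 = (vt b' u').val % 2 := by
    rcases Nat.even_or_odd d with he | ho
    · have hbe := hbb.mp he
      subst hbe
      have : (vt b u).val % 2 = 1 ↔ (vt b u').val % 2 = 1 := h1.trans h2.symm
      rw [Nat.even_iff] at he
      omega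
    · have hne : ¬ (b = b') := fun hcon => (Nat.not_even_iff_odd.mpr ho) (hbb.mpr hcon)
      rw [Nat.odd_iff] at ho
      cases b <;> cases b' <;> simp_all <;> omega
  have key : (vt b u).val ≠ (vt b' u').val ∧
      min (Nat.dist (vt b u).val (vt b' u').val)
        (2 * p - Nat.dist (vt b u).val (vt b' u').val) = d := by
    rcases hu with hu | hu
    · have h3 : (((vt b' u').val : ℤ) : ZMod p) = (((vt b u).val + d : ℤ) : ZMod p) := by
        push_cast
        rw [hc, hc', hu]
      rw [ZMod.intCast_eq_intCast_iff_dvd_sub] at h3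
      obtain ⟨k, hk⟩ := h3
      exact core p _ _ d hpo hv hv' hd hdp k hk hpar
    · have h3 : (((vt b u).val : ℤ) : ZMod p) = (((vt b' u').val + d : ℤ) : ZMod p) := by
        push_cast
        rw [hc, hc', hu]
        ring
      rw [ZMod.intCast_eq_intCast_iff_dvd_sub] at h3
      obtain ⟨k, hk⟩ := h3
      have := core p _ _ d hpo hv' hv hd hdp k hk (by omega)
      rw [Nat.dist_comm]
      exact ⟨fun h => this.1 h.symm, this.2⟩
  refine ⟨fun h => key.1 (congrArg Fin.val h), ?_⟩
  unfold edgeLen
  rw [Sym2.lift_mk]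
  exact key.2

end Pool.Agent.N420.PM
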