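import Pool.Agent.N420.PM.Stm

set_option autoImplicit false

/-!
Project PM, part NEC: the number of edges of even length of a perfect matching is even.
-/

namespace Pool.Agent.N420.PM

open Finset

namespace NECx

theorem len_even (n : ℕ) (x y : Fin (2 * n)) :
    Even (len n x y) ↔ (Even x.val ↔ Even y.val) := by
  have hx := x.isLt
  have hy := y.isLt
  unfold len
  simp only [Nat.even_iff, Nat.dist]
  omega

/-- the sum over the vertices of an edge -/
noncomputable def vs {n : ℕ} (c : Fin (2 * n) → ℕ) (e : Sym2 (Fin (2 * n))) : ℕ := by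
  classical
  exact ∑ v : Fin (2 * n), if v ∈ e then c v else 0

theorem vs_eq {n : ℕ} (c : Fin (2 * n) → ℕ) (x y : Fin (2 * n)) (h : x ≠ y) :
    vs c s(x, y) = c x + c y := by
  classical
  unfold vs
  rw [← Finset.sum_filter]
  have h1 : (Finset.univ.filter fun v : Fin (2 * n) => v ∈ s(x, y)) = {x, y} := by
    ext v
    simp [Sym2.mem_iff]
  rw [h1, Finset.sum_pair h]

theorem vs_sum {n : ℕ} (c : Fin (2 * n) → ℕ) (F : Finset (Sym2 (Fin (2 * n))))
    (hF : IsPerfectMatching n F) : ∑ e ∈ F, vs c e = ∑ v, c v := by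
  classical
  unfold vs
  rw [Finset.sum_comm]
  refine Finset.sum_congr rfl fun v _ => ?_
  obtain ⟨e, ⟨he, hv⟩, huniq⟩ := hF.2 v
  rw [Finset.sum_eq_single e]
  · rw [if_pos hv]
  · intro e' he' hne
    rw [if_neg]
    intro hv'
    exact hne (huniq e' ⟨he', hv'⟩)
  · intro h
    exact absurd he h

theorem sum_ev (n : ℕ) : ∑ v : Fin (2 * n), (if Even v.val then 1 else 0) = n := by
  rw [Fin.sum_univ_eq_sum_range (fun i => if Even i then 1 else 0) (2 * n)]
  induction n with
  | zero => simp
  | succ n ih =>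
    rw [show 2 * (n + 1) = 2 * n + 1 + 1 by ring, Finset.sum_range_succ, Finset.sum_range_succ, ih]
    have h1 : Even (2 * n) := even_two_mul n
    have h2 : ¬ Even (2 * n + 1) := by
      rw [Nat.even_iff]
      omega
    rw [if_pos h1, if_neg h2]

theorem edge {n : ℕ} (e : Sym2 (Fin (2 * n))) (he : ¬ e.IsDiag) :
    vs (fun _ => 1) e = 2 ∧
      ∃ h : ℕ, vs (fun v => if Even v.val then 1 else 0) e +
        (if Even (edgeLen n e) then 1 else 0) = 1 + 2 * h := by
  induction e using Sym2.ind with
  | _ x y =>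
    have hxy : x ≠ y := by
      intro h
      exact he (by rw [h]; exact Sym2.mk_isDiag_iff.2 rfl)
    rw [vs_eq _ x y hxy, vs_eq _ x y hxy]
    refine ⟨rfl, ?_⟩
    have h1 : edgeLen n s(x, y) = len n x y := rfl
    rw [h1]
    have h2 := len_even n x y
    by_cases hx : Even x.val <;> by_cases hy : Even y.val
    · have h3 : Even (len n x y) := h2.2 (by tauto)
      exact ⟨1, by simp [hx, hy, h3]⟩
    · have h3 : ¬ Even (len n x y) := fun h => by tauto
      exact ⟨0, by simp [hx, hy, h3]⟩
    · have h3 : ¬ Even (len n x y) := fun h => by tauto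
      exact ⟨0, by simp [hx, hy, h3]⟩
    · have h3 : Even (len n x y) := h2.2 (by tauto)
      exact ⟨0, by simp [hx, hy, h3]⟩

end NECx

open NECx in
theorem t_NEC : S_NEC := by
  classical
  intro n _ F hF
  have h1 : ∑ e ∈ F, vs (fun _ => 1) e = 2 * n := by
    rw [vs_sum _ F hF]
    simp
  have h2 : ∑ e ∈ F, vs (fun _ => 1) e = 2 * F.card := by
    rw [Finset.sum_congr rfl fun e he => (edge e (hF.1 e he)).1, Finset.sum_const, smul_eq_mul,
      mul_comm]
  have h3 : ∑ e ∈ F, vs (fun v => if Even v.val then 1 else 0) e = n := by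
    rw [vs_sum _ F hF, sum_ev]
  have h4 : ∑ e ∈ F, (if Even (edgeLen n e) then 1 else 0) =
      Multiset.card ((lengths n F).filter fun l => Even l) := by
    rw [← Finset.card_filter]
    unfold lengths
    rw [Multiset.filter_map, Multiset.card_map]
    rfl
  choose! k hk using fun (e : Sym2 (Fin (2 * n))) (he : e ∈ F) => (edge e (hF.1 e he)).2
  have h5 : ∑ e ∈ F, (vs (fun v => if Even v.val then 1 else 0) e +
      (if Even (edgeLen n e) then 1 else 0)) = F.card + 2 * ∑ e ∈ F, k e := by
    rw [Finset.sum_congr rfl hk, Finset.sum_add_distrib, Finset.mul_sum]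
    simp
  rw [Finset.sum_add_distrib, h3, h4] at h5
  rw [Nat.even_iff]
  omega

end Pool.Agent.N420.PM
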