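import Pool.Agent.N420.PM.Stm

/-!
# All nonzero terms are equal
-/

set_option autoImplicit false

namespace Pool.Agent.N420.PM

open Finset Equiv

namespace SGNx

/-- the product of the nonzero elements -/
lemma prod_all (p : ℕ) [Fact p.Prime] :
    ∏ u : ZMod p, (if u = 0 then 1 else u) = (-1 : ZMod p) := by
  have h1 : ∏ u : ZMod p, (if u = 0 then 1 else u) =
      ∏ u ∈ univ.filter (fun u : ZMod p => u ≠ 0), u := by
    rw [Finset.prod_filter]
    refine Finset.prod_congr rfl fun u _ => ?_
    by_cases h : u = 0 <;> simp [h]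
  have h2 : ∏ u ∈ univ.filter (fun u : ZMod p => u ≠ 0), u =
      ∏ u : {a : ZMod p // a ≠ 0}, (u : ZMod p) :=
    Finset.prod_subtype _ (by simp) _
  have h3 : ∏ u : {a : ZMod p // a ≠ 0}, (u : ZMod p) = ∏ x : (ZMod p)ˣ, (x : ZMod p) :=
    (Fintype.prod_equiv unitsEquivNeZero _ _ (fun x => rfl)).symm
  have h4 : ∏ x : (ZMod p)ˣ, (x : ZMod p) = -1 := by
    have := congrArg Units.val (FiniteField.prod_univ_units_id_eq_neg_one (K := ZMod p))
    rw [Units.coe_prod] at this
    simpa using this
  rw [h1, h2, h3, h4]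

/-- permutations commuting with the flip -/
lemma key {N e : ℕ} (κ : Perm (Ix N e)) (h0 : κ none = none)
    (h1 : ∀ i, κ (some (Sum.inl i)) = some (Sum.inl i))
    (h2 : ∀ j j' b, κ (some (Sum.inr (j, false))) = some (Sum.inr (j', b)) →
      κ (some (Sum.inr (j, true))) = some (Sum.inr (j', !b))) :
    ∃ (π : Perm (Fin e)) (c : Fin e → Bool),
      (∀ j, κ (some (Sum.inr (j, false))) = some (Sum.inr (π j, c j)) ∧
        κ (some (Sum.inr (j, true))) = some (Sum.inr (π j, !(c j)))) ∧
      Perm.sign κ = ∏ j, (if c j = true then -1 else 1) := by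
  have hex : ∀ j : Fin e, ∃ z : Fin e × Bool, κ (some (Sum.inr (j, false))) = some (Sum.inr z) := by
    intro j
    rcases h : κ (some (Sum.inr (j, false))) with _ | (i | z)
    · have := κ.injective (h.trans h0.symm)
      simp at this
    · have := κ.injective (h.trans (h1 i).symm)
      simp at this
    · exact ⟨z, rfl⟩
  choose z hz using hex
  have hz2 : ∀ j, κ (some (Sum.inr (j, true))) = some (Sum.inr ((z j).1, !(z j).2)) :=
    fun j => h2 j (z j).1 (z j).2 (hz j)
  have hinj : Function.Injective fun j => (z j).1 := by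
    intro j j' hjj
    simp only at hjj
    by_cases hb : (z j).2 = (z j').2
    · have h3 : z j = z j' := Prod.ext hjj hb
      have h4 : κ (some (Sum.inr (j, false))) = κ (some (Sum.inr (j', false))) := by
        rw [hz, hz, h3]
      have := κ.injective h4
      simpa using this
    · have h3 : (!(z j).2) = (z j').2 := by
        revert hb
        cases (z j).2 <;> cases (z j').2 <;> simp
      have h4 : κ (some (Sum.inr (j, true))) = κ (some (Sum.inr (j', false))) := by
        rw [hz2, hz, h3, hjj]
      have := κ.injective h4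
      simp at this
  let π : Perm (Fin e) := Equiv.ofBijective _ (Finite.injective_iff_bijective.1 hinj)
  refine ⟨π, fun j => (z j).2, fun j => ⟨hz j, hz2 j⟩, ?_⟩
  have hκ : κ = Equiv.optionCongr (Equiv.Perm.sumCongr (1 : Perm (Fin N))
      ((Equiv.prodCongrLeft fun _ : Bool => π) *
        (Equiv.prodCongrRight fun j => if (z j).2 = true then Equiv.boolNot else 1 :
          Perm (Fin e × Bool)))) := by
    ext1 k
    rcases k with _ | (i | ⟨j, b⟩)
    · rw [h0]
      rfl
    · rw [h1]
      rfl
    · cases b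
      · rw [hz]
        simp only [Equiv.optionCongr_apply, Option.map_some, Equiv.Perm.sumCongr_apply, Sum.map_inr,
          Perm.mul_apply, Equiv.prodCongrRight_apply, Equiv.prodCongrLeft_apply]
        congr 2
        apply Prod.ext
        · rfl
        · cases h : (z j).2 <;> simp
      · rw [hz2]
        simp only [Equiv.optionCongr_apply, Option.map_some, Equiv.Perm.sumCongr_apply, Sum.map_inr,
          Perm.mul_apply, Equiv.prodCongrRight_apply, Equiv.prodCongrLeft_apply]
        congr 2
        apply Prod.ext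
        · rfl
        · cases h : (z j).2 <;> simp
  rw [hκ, Equiv.optionCongr_sign, Perm.sign_sumCongr, Perm.sign_one, one_mul, Perm.sign_mul,
    Perm.sign_prodCongrLeft, Perm.sign_prodCongrRight]
  have e1 : ∏ _k : Bool, Perm.sign π = 1 := by
    rw [Finset.prod_const, Finset.card_univ, Fintype.card_bool]
    exact Int.units_sq _
  rw [e1, one_mul]
  refine Finset.prod_congr rfl fun j _ => ?_
  split_ifs
  · decide
  · exact Perm.sign_one

end SGNx

open SGNx in
/-- **SGN** -/
theorem t_SGN : S_SGN := by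
  intro p N e _ q σ τ hp hN hσ hτ hm
  -- the permutations
  let ν : Perm (Ix N e) := q.symm.permCongr (Equiv.neg (ZMod p))
  have hν : ∀ k, q (ν k) = - q k := by
    intro k
    simp [ν, Equiv.permCongr_apply]
  let κ : Perm (Ix N e) := (ν * σ)⁻¹ * τ
  have hτκ : τ = ν * σ * κ := (mul_inv_cancel_left (ν * σ) τ).symm
  have hs : ∀ k, q (τ k) = - q (σ (κ k)) := by
    intro k
    rw [← hν]
    conv_lhs => rw [hτκ]
    rfl
  have hinj : ∀ {k l : Ix N e}, q (σ k) = q (σ l) → k = l := fun h => σ.injective (q.injective h)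
  have h0 : κ none = none := by
    apply hinj
    rw [hσ.1]
    have h1 := hs none
    rw [hτ.1] at h1
    exact (neg_eq_zero.1 h1.symm)
  have h1 : ∀ i, κ (some (Sum.inl i)) = some (Sum.inl i) := by
    intro i
    apply hinj
    have h1 := hs (some (Sum.inl i))
    rw [hm i] at h1
    exact (neg_injective h1).symm
  have hσ' : ∀ (j : Fin e) (b : Bool), q (σ (some (Sum.inr (j, !b)))) =
      - q (σ (some (Sum.inr (j, b)))) := by
    intro j b
    cases b
    · exact hσ.2 j
    · have := hσ.2 j
      rw [this, neg_neg]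
      rfl
  have h2 : ∀ j j' b, κ (some (Sum.inr (j, false))) = some (Sum.inr (j', b)) →
      κ (some (Sum.inr (j, true))) = some (Sum.inr (j', !b)) := by
    intro j j' b h
    apply hinj
    have h3 := hs (some (Sum.inr (j, true)))
    rw [hτ.2 j, hs (some (Sum.inr (j, false))), h, neg_neg] at h3
    rw [hσ' j' b, h3, neg_neg]
  obtain ⟨π, c, hκ, hsign⟩ := key κ h0 h1 h2
  -- the products
  obtain ⟨a, ha⟩ : ∃ a : Fin N → ZMod p, a = fun i => q (σ (some (Sum.inl i))) := ⟨_, rfl⟩
  obtain ⟨s, hsd⟩ : ∃ s : Fin e → ZMod p, s = fun j => q (σ (some (Sum.inr (j, true)))) :=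
    ⟨_, rfl⟩
  have e1 : ∏ i : Fin N, q (τ (some (Sum.inl i))) = ∏ i, a i := by
    have hNe : Even N := by
      have hodd : Odd p := (Fact.out : p.Prime).odd_of_ne_two hp
      rw [← hN] at hodd
      obtain ⟨m, hm'⟩ := hodd
      exact ⟨m - e, by omega⟩
    have : ∏ i : Fin N, q (τ (some (Sum.inl i))) = ∏ i, (-1) * a i := by
      refine Finset.prod_congr rfl fun i _ => ?_
      rw [hm i, ha]
      ring
    rw [this, Finset.prod_mul_distrib, Finset.prod_const, Finset.card_univ, Fintype.card_fin,
      hNe.neg_one_pow, one_mul]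
  have e2 : ∏ j : Fin e, q (τ (some (Sum.inr (j, true)))) =
      (-1) ^ e * ((Perm.sign κ : ℤ) : ZMod p) * ∏ j, s j := by
    have h3 : ∀ j : Fin e, q (τ (some (Sum.inr (j, true)))) =
        (-1) * ((if c j = true then (-1 : ℤˣ) else 1 : ℤˣ) : ℤ) * s (π j) := by
      intro j
      rw [hs, (hκ j).2, hsd]
      by_cases hc : c j = true
      · simp only [hc, if_true]
        have := hσ' (π j) true
        simp only [Bool.not_true] at this ⊢
        rw [this]
        push_cast
        ring
      · have hc' : c j = false := by simpa using hc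
        simp [hc']
    rw [Finset.prod_congr rfl fun j _ => h3 j, Finset.prod_mul_distrib, Finset.prod_mul_distrib,
      Finset.prod_const, Finset.card_univ, Fintype.card_fin, Equiv.prod_comp π s, hsign]
    push_cast
    rfl
  have e3 : (∏ i, a i) * ((-1) ^ e * (∏ j, s j) ^ 2) = (-1 : ZMod p) := by
    refine Eq.trans ?_ (prod_all p)
    have h3 : ∏ u : ZMod p, (if u = 0 then 1 else u) =
        ∏ k : Ix N e, (if q (σ k) = 0 then 1 else q (σ k)) :=
      (Equiv.prod_comp (σ.trans q) (fun u : ZMod p => if u = 0 then 1 else u)).symm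
    have hne : ∀ x, q (σ (some x)) ≠ 0 := by
      intro x hx
      have := hinj (hx.trans hσ.1.symm)
      simp at this
    rw [h3, Fintype.prod_option, if_pos hσ.1, one_mul]
    simp only [hne, if_false]
    rw [Fintype.prod_sum_type, Fintype.prod_prod_type]
    simp only [Fintype.prod_bool]
    rw [ha]
    congr 1
    rw [← Finset.prod_pow]
    have : (-1 : ZMod p) ^ e = ∏ _j : Fin e, (-1 : ZMod p) := by simp
    rw [this, ← Finset.prod_mul_distrib]
    refine Finset.prod_congr rfl fun j _ => ?_
    rw [hsd]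
    have := hσ.2 j
    simp only
    rw [this]
    ring
  have e4 : Perm.sign τ = Perm.sign (Equiv.neg (ZMod p)) * Perm.sign σ * Perm.sign κ := by
    conv_lhs => rw [hτκ]
    rw [Perm.sign_mul, Perm.sign_mul, Perm.sign_permCongr]
  have hu : ∀ w : ℤˣ, ((w : ℤ) : ZMod p) * ((w : ℤ) : ZMod p) = 1 := by
    intro w
    rw [← Int.cast_mul, ← Units.val_mul, Int.units_mul_self]
    simp
  unfold wt
  rw [e1, e2, e4]
  have hsd' : ∏ j : Fin e, q (σ (some (Sum.inr (j, true)))) = ∏ j, s j := by rw [hsd]
  rw [hsd']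
  push_cast
  have u1 := hu (Perm.sign σ)
  have u2 := hu (Perm.sign κ)
  generalize ((Perm.sign σ : ℤ) : ZMod p) = x at *
  generalize ((Perm.sign κ : ℤ) : ZMod p) = y at *
  generalize ((Perm.sign (Equiv.neg (ZMod p)) : ℤ) : ZMod p) = w at *
  calc x * (w * x * y) * (∏ i, a i) * (∏ j, s j) * ((-1) ^ e * y * ∏ j, s j) =
      (x * x) * (y * y) * w * ((∏ i, a i) * ((-1) ^ e * (∏ j, s j) ^ 2)) := by ring
    _ = - w := by rw [u1, u2, e3]; ring

end Pool.Agent.N420.PM
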