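import Pool.Agent.N420.PM.Stm

/-!
# Project PM (helper420), part SUF: assembly of the matching from the points (helper946)
-/

set_option autoImplicit false

namespace Pool.Agent.N420.PM

namespace SUFx

open Finset

/-- a multiset is the image of `Fin n` -/
theorem exists_fun (M : Multiset ℕ) (n : ℕ) (h : Multiset.card M = n) :
    ∃ f : Fin n → ℕ, (univ : Finset (Fin n)).val.map f = M := by
  obtain ⟨l, rfl⟩ : ∃ l : List ℕ, M = (l : Multiset ℕ) := ⟨M.toList, (Multiset.coe_toList M).symm⟩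
  rw [Multiset.coe_card] at h
  subst h
  refine ⟨l.get, ?_⟩
  rw [Fin.univ_val_map, List.ofFn_get]

/-- a multiset with `e + e` elements is the sum of two multisets with `e` elements -/
theorem exists_split (M : Multiset ℕ) (e : ℕ) (h : Multiset.card M = e + e) :
    ∃ s t : Multiset ℕ, s + t = M ∧ Multiset.card s = e ∧ Multiset.card t = e := by
  obtain ⟨l, rfl⟩ : ∃ l : List ℕ, M = (l : Multiset ℕ) := ⟨M.toList, (Multiset.coe_toList M).symm⟩
  rw [Multiset.coe_card] at h
  refine ⟨(l.take e : List ℕ), (l.drop e : List ℕ), ?_, ?_, ?_⟩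
  · rw [Multiset.coe_add, List.take_append_drop]
  · rw [Multiset.coe_card, List.length_take]
    omega
  · rw [Multiset.coe_card, List.length_drop]
    omega

/-- a matching from a bijection -/
theorem matching {n : ℕ} {J : Type} [Fintype J] (ψ : J × Bool → Fin (2 * n))
    (hψ : Function.Bijective ψ) :
    ∃ F : Finset (Sym2 (Fin (2 * n))), IsPerfectMatching n F ∧
      lengths n F = (univ : Finset J).val.map (fun j => edgeLen n s(ψ (j, false), ψ (j, true))) := by
  classical
  have hmem : ∀ j j' s, ψ (j, s) ∈ s(ψ (j', false), ψ (j', true)) → j = j' := by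
    intro j j' s h
    rw [Sym2.mem_iff] at h
    rcases h with h | h
    · exact (Prod.ext_iff.1 (hψ.1 h)).1
    · exact (Prod.ext_iff.1 (hψ.1 h)).1
  have hinj : Function.Injective (fun j : J => s(ψ (j, false), ψ (j, true))) := by
    intro j j' h
    refine hmem j j' false ?_
    simp only at h
    rw [← h]
    exact Sym2.mem_mk_left _ _
  refine ⟨univ.image fun j : J => s(ψ (j, false), ψ (j, true)), ⟨?_, ?_⟩, ?_⟩
  · intro e he
    obtain ⟨j, -, rfl⟩ := mem_image.1 he
    rw [Sym2.mk_isDiag_iff]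
    intro h
    have := (Prod.ext_iff.1 (hψ.1 h)).2
    simp at this
  · intro v
    obtain ⟨⟨j, s⟩, rfl⟩ := hψ.2 v
    refine ⟨s(ψ (j, false), ψ (j, true)), ⟨mem_image_of_mem _ (mem_univ j), ?_⟩, ?_⟩
    · cases s
      · exact Sym2.mem_mk_left _ _
      · exact Sym2.mem_mk_right _ _
    · rintro e ⟨he, hv⟩
      obtain ⟨j', -, rfl⟩ := mem_image.1 he
      rw [hmem j j' s hv]
  · unfold lengths
    rw [image_val_of_injOn hinj.injOn, Multiset.map_map]
    rfl

/-- the end points of the edges -/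
def ph (N e : ℕ) : (Option (Fin N) ⊕ (Fin e ⊕ Fin e)) × Bool → Bool × Ix N e
  | (Sum.inl none, s) => (s, none)
  | (Sum.inl (some i), s) => (s, some (Sum.inl i))
  | (Sum.inr (Sum.inl j), s) => (false, some (Sum.inr (j, s)))
  | (Sum.inr (Sum.inr j), s) => (true, some (Sum.inr (j, s)))

theorem ph_bij (N e : ℕ) : Function.Bijective (ph N e) := by
  constructor
  · rintro ⟨(_ | i) | (j | j), s⟩ ⟨(_ | i') | (j' | j'), s'⟩ h <;> simp_all [ph]
  · rintro ⟨c, _ | (i | ⟨j, s⟩)⟩
    · exact ⟨(Sum.inl none, c), rfl⟩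
    · exact ⟨(Sum.inl (some i), c), rfl⟩
    · cases c
      · exact ⟨(Sum.inr (Sum.inl j), s), rfl⟩
      · exact ⟨(Sum.inr (Sum.inr j), s), rfl⟩

theorem mapSum {α β : Type} [Fintype α] [Fintype β] (f : α ⊕ β → ℕ) :
    (univ : Finset (α ⊕ β)).val.map f = (univ : Finset α).val.map (fun a => f (Sum.inl a)) +
      (univ : Finset β).val.map (fun b => f (Sum.inr b)) := by
  rw [← univ_disjSum_univ, val_disjSum, Multiset.disjSum, Multiset.map_add, Multiset.map_map,
    Multiset.map_map]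
  rfl

theorem map_opt {α : Type} [Fintype α] (f : Option α → ℕ) :
    (univ : Finset (Option α)).val.map f =
      f none ::ₘ (univ : Finset α).val.map (fun a => f (some a)) := by
  have h : (univ : Finset (Option α)).val = none ::ₘ (univ : Finset α).val.map some := rfl
  rw [h, Multiset.map_cons, Multiset.map_map]
  rfl

theorem exists_cons (M : Multiset ℕ) (n : ℕ) (h : Multiset.card M = n + 1) :
    ∃ (a : ℕ) (t : Multiset ℕ), a ::ₘ t = M ∧ Multiset.card t = n := by
  obtain ⟨a, ha⟩ := Multiset.card_pos_iff_exists_mem.1 (by omega : 0 < Multiset.card M)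
  obtain ⟨t, rfl⟩ := Multiset.exists_cons_of_mem ha
  refine ⟨a, t, rfl, ?_⟩
  rw [Multiset.card_cons] at h
  omega

theorem cast_ne {p : ℕ} (hp : 2 ≤ p) {l : ℕ} (h : 1 ≤ l ∧ l ≤ p - 1) : (l : ZMod p) ≠ 0 := by
  rw [Ne, ZMod.natCast_eq_zero_iff]
  intro hd
  have := Nat.le_of_dvd (by omega) hd
  omega

end SUFx

open SUFx Finset in
theorem t_SUF (h1 : S_CORE) (h2 : S_VT) (h3 : S_LEN) : S_SUF := by
  classical
  intro p hp hp2 L hL hL1 hLe
  have : Fact p.Prime := ⟨hp⟩
  have h2p : 2 ≤ p := hp.two_le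
  obtain ⟨e, he⟩ := hLe
  have hsum := Multiset.filter_add_not (fun l => Even l) L
  have hodd : ¬ Even p := by
    rw [Nat.not_even_iff_odd]
    exact hp.odd_of_ne_two hp2
  have hcard : Multiset.card (L.filter fun l => ¬ Even l) + (e + e) = p := by
    rw [← hL]
    conv_rhs => rw [← hsum]
    rw [Multiset.card_add, he, add_comm]
  obtain ⟨N, hN⟩ : ∃ N, Multiset.card (L.filter fun l => ¬ Even l) = N + 1 := by
    refine ⟨Multiset.card (L.filter fun l => ¬ Even l) - 1, ?_⟩
    have : Multiset.card (L.filter fun l => ¬ Even l) ≠ 0 := by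
      intro h0
      apply hodd
      rw [← hcard, h0, zero_add]
      exact ⟨e, rfl⟩
    omega
  have hNp : N + 2 * e + 1 = p := by omega
  obtain ⟨d0, t, ht, htc⟩ := exists_cons _ N hN
  obtain ⟨dd, hdd⟩ := exists_fun t N htc
  obtain ⟨s1, s2, hs, hs1, hs2⟩ := exists_split _ e he
  obtain ⟨ff, hff⟩ := exists_fun s1 e hs1
  obtain ⟨gg, hgg⟩ := exists_fun s2 e hs2
  -- the entries
  have hO : ∀ l ∈ L.filter fun l => ¬ Even l, (1 ≤ l ∧ l ≤ p - 1) ∧ ¬ Even l := by
    intro l hl
    rw [Multiset.mem_filter] at hl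
    exact ⟨hL1 l hl.1, hl.2⟩
  have hE : ∀ l ∈ L.filter fun l => Even l, (1 ≤ l ∧ l ≤ p - 1) ∧ Even l := by
    intro l hl
    rw [Multiset.mem_filter] at hl
    exact ⟨hL1 l hl.1, hl.2⟩
  have hd0 := hO d0 (by rw [← ht]; exact Multiset.mem_cons_self _ _)
  have hd : ∀ i, (1 ≤ dd i ∧ dd i ≤ p - 1) ∧ ¬ Even (dd i) := by
    intro i
    refine hO _ ?_
    rw [← ht, ← hdd]
    exact Multiset.mem_cons_of_mem (Multiset.mem_map_of_mem _ (mem_univ i))
  have hf : ∀ j, (1 ≤ ff j ∧ ff j ≤ p - 1) ∧ Even (ff j) := by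
    intro j
    refine hE _ ?_
    rw [← hs, ← hff]
    exact Multiset.mem_add.2 (Or.inl (Multiset.mem_map_of_mem _ (mem_univ j)))
  have hg : ∀ j, (1 ≤ gg j ∧ gg j ≤ p - 1) ∧ Even (gg j) := by
    intro j
    refine hE _ ?_
    rw [← hs, ← hgg]
    exact Multiset.mem_add.2 (Or.inr (Multiset.mem_map_of_mem _ (mem_univ j)))
  obtain ⟨a, b, x, y, hP, hQ⟩ := h1 p N e hp2 hNp (d0 : ZMod p) (fun i => (dd i : ZMod p))
    (fun j => (ff j : ZMod p)) (fun j => (gg j : ZMod p)) (fun i => cast_ne h2p (hd i).1)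
    (fun j => cast_ne h2p (hf j).1) (fun j => cast_ne h2p (hg j).1)
  set P := pt (fun j => (ff j : ZMod p)) 0 a x with hPd
  set Q := pt (fun j => (gg j : ZMod p)) (d0 : ZMod p) (fun i => a i + sg (b i) * (dd i : ZMod p)) y
    with hQd
  have hcardI : Fintype.card (Ix N e) = Fintype.card (ZMod p) := by
    rw [ZMod.card, Fintype.card_option, Fintype.card_sum, Fintype.card_prod, Fintype.card_fin,
      Fintype.card_fin, Fintype.card_bool]
    omega
  have hPb := (Fintype.bijective_iff_injective_and_card P).2 ⟨hP, hcardI⟩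
  have hQb := (Fintype.bijective_iff_injective_and_card Q).2 ⟨hQ, hcardI⟩
  have hV : Function.Bijective (fun z : Bool × Ix N e => vt z.1 (bif z.1 then Q z.2 else P z.2)) := by
    have h4 : Function.Bijective (fun z : Bool × Ix N e => (z.1, bif z.1 then Q z.2 else P z.2)) := by
      constructor
      · rintro ⟨c, k⟩ ⟨c', k'⟩ h
        rw [Prod.mk.injEq] at h
        obtain ⟨rfl, h⟩ := h
        cases c
        · exact congrArg _ (hP h)
        · exact congrArg _ (hQ h)
      · rintro ⟨c, u⟩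
        cases c
        · obtain ⟨k, hk⟩ := hPb.2 u
          exact ⟨(false, k), by simp [hk]⟩
        · obtain ⟨k, hk⟩ := hQb.2 u
          exact ⟨(true, k), by simp [hk]⟩
    exact (h2 p hp2).comp h4
  obtain ⟨F, hF, hlen⟩ := matching _ (hV.comp (ph_bij N e))
  refine ⟨F, hF, ?_⟩
  rw [hlen, mapSum, mapSum, map_opt]
  rw [← hsum, ← hs, ← ht, ← hdd, ← hff, ← hgg, add_comm]
  have hlt : ∀ l, (1 ≤ l ∧ l ≤ p - 1) → l < p := fun l hl => by omega
  congr 1
  · congr 1
    · refine Multiset.map_congr rfl fun j _ => ?_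
      exact (h3 p hp2 false false _ _ (ff j) (hf j).1.1 (hlt _ (hf j).1) (Or.inl rfl)
        (by simp [(hf j).2])).2
    · refine Multiset.map_congr rfl fun j _ => ?_
      exact (h3 p hp2 true true _ _ (gg j) (hg j).1.1 (hlt _ (hg j).1) (Or.inl rfl)
        (by simp [(hg j).2])).2
  · congr 1
    · exact (h3 p hp2 false true _ _ d0 hd0.1.1 (hlt _ hd0.1) (Or.inl (zero_add _).symm)
        (by simp [hd0.2])).2
    · refine Multiset.map_congr rfl fun i _ => ?_
      refine (h3 p hp2 false true _ _ (dd i) (hd i).1.1 (hlt _ (hd i).1) ?_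
        (by simp [(hd i).2])).2
      show a i + sg (b i) * (dd i : ZMod p) = a i + (dd i : ZMod p) ∨
        a i + sg (b i) * (dd i : ZMod p) = a i - (dd i : ZMod p)
      cases b i
      · right
        simp [sg, sub_eq_add_neg]
      · left
        simp [sg]

end Pool.Agent.N420.PM
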