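import Pool.Agent.N420.PM.Stm

/-!
# VAL: the terms which are not zero
-/

set_option autoImplicit false

namespace Pool.Agent.N420.PM.VALx

open Finset Equiv Pool.Agent.N420.PM

theorem sum_val (p : ℕ) [NeZero p] : (∑ x : ZMod p, x.val) * 2 = p * (p - 1) := by
  rw [← Finset.sum_range_id_mul_two]
  congr 1
  refine Finset.sum_nbij' (fun x => x.val) (fun n => (n : ZMod p)) ?_ ?_ ?_ ?_ ?_
  · intro x _
    exact Finset.mem_range.2 (ZMod.val_lt x)
  · intro n _
    exact Finset.mem_univ _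
  · intro x _
    exact ZMod.natCast_zmod_val x
  · intro n hn
    exact ZMod.val_cast_of_lt (Finset.mem_range.1 hn)
  · intro x _
    rfl

theorem sum_ix {N e : ℕ} (E : Ix N e → ℕ) :
    ∑ k, E k = E none + (∑ i, E (some (Sum.inl i))) +
      (∑ j, (E (some (Sum.inr (j, false))) + E (some (Sum.inr (j, true))))) := by
  rw [Fintype.sum_option, Fintype.sum_sum_type, Fintype.sum_prod_type]
  simp only [Fintype.sum_bool]
  rw [add_assoc]
  congr 2
  exact Finset.sum_congr rfl fun j _ => add_comm _ _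

theorem sum_perm {p N e : ℕ} [NeZero p] (q : Ix N e ≃ ZMod p) (σ : Perm (Ix N e)) :
    ∑ k, (q (σ k)).val = ∑ x : ZMod p, x.val :=
  Equiv.sum_comp (σ.trans q) (fun x : ZMod p => x.val)

theorem add_eq_zero_of_val {p : ℕ} [NeZero p] (u v : ZMod p) (h : u.val + v.val = p) :
    v = -u := by
  have h1 : ((u.val + v.val : ℕ) : ZMod p) = ((p : ℕ) : ZMod p) := by rw [h]
  rw [Nat.cast_add, ZMod.natCast_zmod_val, ZMod.natCast_zmod_val, ZMod.natCast_self] at h1
  exact (neg_eq_of_add_eq_zero_right h1).symm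

theorem val_of_neg {p : ℕ} [NeZero p] (u v : ZMod p) (hu : u ≠ 0) (h : v = -u) :
    u.val + v.val = p := by
  subst h
  rw [ZMod.neg_val, if_neg hu]
  have := ZMod.val_lt u
  omega

/-- the counting argument -/
theorem count {N e p : ℕ} (A B : ℕ) (P : Fin N → ℕ) (Q R : Fin e → ℕ)
    (hP : ∀ i, p ≤ P i) (hQ : ∀ j, p ≤ Q j) (hR : ∀ j, p ≤ R j)
    (tot : A + B + ∑ i, P i + ∑ j, Q j + ∑ j, R j = (N + 2 * e) * p) :
    A = 0 ∧ B = 0 ∧ (∀ i, P i = p) ∧ (∀ j, Q j = p) ∧ (∀ j, R j = p) := by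
  have key : ∀ (n : ℕ) (F : Fin n → ℕ), (∀ i, p ≤ F i) → n * p ≤ ∑ i, F i ∧
      (∑ i, F i = n * p → ∀ i, F i = p) := by
    intro n F hF
    have hs : ∑ _i : Fin n, p = n * p := by
      rw [Finset.sum_const, Finset.card_univ, Fintype.card_fin, smul_eq_mul]
    have hle : ∑ _i : Fin n, p ≤ ∑ i, F i := Finset.sum_le_sum fun i _ => hF i
    refine ⟨hs ▸ hle, fun h i => ?_⟩
    have h2 := (Finset.sum_eq_sum_iff_of_le (s := Finset.univ) (f := fun _ : Fin n => p) (g := F)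
      (fun i _ => hF i)).1 (by rw [hs, h])
    exact (h2 i (Finset.mem_univ i)).symm
  obtain ⟨p1, p2⟩ := key N P hP
  obtain ⟨q1, q2⟩ := key e Q hQ
  obtain ⟨r1, r2⟩ := key e R hR
  have ht : (N + 2 * e) * p = N * p + e * p + e * p := by ring
  rw [ht] at tot
  refine ⟨by omega, by omega, p2 (by omega), q2 (by omega), r2 (by omega)⟩

/-- the total -/
theorem total {p N e : ℕ} [NeZero p] (q : Ix N e ≃ ZMod p) (σ τ : Perm (Ix N e))
    (hN : N + 2 * e + 1 = p) :
    (q (σ none)).val + (q (τ none)).val +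
      ∑ i : Fin N, ((q (σ (some (Sum.inl i)))).val + (q (τ (some (Sum.inl i)))).val) +
      ∑ j : Fin e, ((q (σ (some (Sum.inr (j, false))))).val +
        (q (σ (some (Sum.inr (j, true))))).val) +
      ∑ j : Fin e, ((q (τ (some (Sum.inr (j, false))))).val +
        (q (τ (some (Sum.inr (j, true))))).val) = (N + 2 * e) * p := by
  have h1 := sum_ix fun k => (q (σ k)).val
  have h2 := sum_ix fun k => (q (τ k)).val
  rw [sum_perm] at h1 h2
  have h3 := sum_val p
  have hp : p - 1 = N + 2 * e := by omega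
  rw [hp, mul_comm p] at h3
  rw [Finset.sum_add_distrib]
  omega

theorem ne_zero_of_ne {p N e : ℕ} (q : Ix N e ≃ ZMod p) (σ : Perm (Ix N e))
    (h : q (σ none) = 0) (k : Fin N ⊕ (Fin e × Bool)) : q (σ (some k)) ≠ 0 := by
  intro h'
  have h1 : σ (some k) = σ none := q.injective (h'.trans h.symm)
  exact Option.some_ne_none k (σ.injective h1)

theorem term_zero (h1 : S_CF) (h2 : S_GF) (p N e : ℕ) [Fact p.Prime] (q : Ix N e ≃ ZMod p)
    (δ : ZMod p) (d : Fin N → ZMod p) (f g : Fin e → ZMod p) (σ τ : Perm (Ix N e))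
    (hp2 : p ≠ 2) (hN : N + 2 * e + 1 = p) (hne : term q δ d f g σ τ ≠ 0) :
    Good q σ ∧ Good q τ ∧ Match q σ τ := by
  unfold term at hne
  have hg := right_ne_zero_of_mul hne
  have hne2 := left_ne_zero_of_mul hne
  have hf := right_ne_zero_of_mul hne2
  have hne3 := left_ne_zero_of_mul hne2
  have hd := right_ne_zero_of_mul hne3
  rw [Finset.prod_ne_zero_iff] at hg hf hd
  have hP : ∀ i : Fin N, p ≤ (q (σ (some (Sum.inl i)))).val + (q (τ (some (Sum.inl i)))).val := by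
    intro i
    by_contra hc
    exact hd i (Finset.mem_univ i) ((h1 p (d i) _ _ hp2).1 (not_le.1 hc))
  have hQ : ∀ j : Fin e, p ≤ (q (σ (some (Sum.inr (j, false))))).val +
      (q (σ (some (Sum.inr (j, true))))).val := by
    intro j
    by_contra hc
    exact hf j (Finset.mem_univ j) ((h2 p (f j) _ _ hp2).1 (not_le.1 hc))
  have hR : ∀ j : Fin e, p ≤ (q (τ (some (Sum.inr (j, false))))).val +
      (q (τ (some (Sum.inr (j, true))))).val := by
    intro j
    by_contra hc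
    exact hg j (Finset.mem_univ j) ((h2 p (g j) _ _ hp2).1 (not_le.1 hc))
  obtain ⟨ha, hb, hc, hd', he⟩ := count _ _ _ _ _ hP hQ hR (total q σ τ hN)
  refine ⟨⟨(ZMod.val_eq_zero _).1 ha, fun j => add_eq_zero_of_val _ _ (hd' j)⟩,
    ⟨(ZMod.val_eq_zero _).1 hb, fun j => add_eq_zero_of_val _ _ (he j)⟩,
    fun i => add_eq_zero_of_val _ _ (hc i)⟩

theorem term_eq (h1 : S_CF) (h2 : S_GF) (p N e : ℕ) [Fact p.Prime] (q : Ix N e ≃ ZMod p)
    (δ : ZMod p) (d : Fin N → ZMod p) (f g : Fin e → ZMod p) (σ τ : Perm (Ix N e))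
    (hp2 : p ≠ 2) (hs : Good q σ) (ht : Good q τ) (hm : Match q σ τ) :
    term q δ d f g σ τ = (∏ i, (-2 * d i)) * (∏ j, (- f j)) * (∏ j, (- g j)) * wt q σ τ := by
  have e0 : (0 : ZMod p) ^ (q (σ none)).val * δ ^ (q (τ none)).val = 1 := by
    rw [hs.1, ht.1, ZMod.val_zero, pow_zero, pow_zero, mul_one]
  have e1 : (∏ i : Fin N, Cf (d i) (q (σ (some (Sum.inl i)))).val
      (q (τ (some (Sum.inl i)))).val) =
      (∏ i, (-2 * d i)) * (∏ i : Fin N, q (τ (some (Sum.inl i)))) := by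
    rw [← Finset.prod_mul_distrib]
    refine Finset.prod_congr rfl fun i _ => ?_
    rw [(h1 p (d i) _ _ hp2).2 (val_of_neg _ _ (ne_zero_of_ne q σ hs.1 _) (hm i)),
      ZMod.natCast_zmod_val]
  have e2 : (∏ j : Fin e, Gf (f j) (q (σ (some (Sum.inr (j, false))))).val
      (q (σ (some (Sum.inr (j, true))))).val) =
      (∏ j, (- f j)) * (∏ j : Fin e, q (σ (some (Sum.inr (j, true))))) := by
    rw [← Finset.prod_mul_distrib]
    refine Finset.prod_congr rfl fun j _ => ?_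
    rw [(h2 p (f j) _ _ hp2).2 (val_of_neg _ _ (ne_zero_of_ne q σ hs.1 _) (hs.2 j)),
      ZMod.natCast_zmod_val]
  have e3 : (∏ j : Fin e, Gf (g j) (q (τ (some (Sum.inr (j, false))))).val
      (q (τ (some (Sum.inr (j, true))))).val) =
      (∏ j, (- g j)) * (∏ j : Fin e, q (τ (some (Sum.inr (j, true))))) := by
    rw [← Finset.prod_mul_distrib]
    refine Finset.prod_congr rfl fun j _ => ?_
    rw [(h2 p (g j) _ _ hp2).2 (val_of_neg _ _ (ne_zero_of_ne q τ ht.1 _) (ht.2 j)),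
      ZMod.natCast_zmod_val]
  unfold term wt
  rw [e0, e1, e2, e3]
  ring

end Pool.Agent.N420.PM.VALx

namespace Pool.Agent.N420.PM

theorem t_VAL (h1 : S_CF) (h2 : S_GF) : S_VAL := by
  intro p N e _ q δ d f g σ τ hp2 hN
  refine ⟨fun hno => ?_, fun h => ?_⟩
  · by_contra hc
    exact hno (VALx.term_zero h1 h2 p N e q δ d f g σ τ hp2 hN hc)
  · exact VALx.term_eq h1 h2 p N e q δ d f g σ τ hp2 h.1 h.2.1 h.2.2

end Pool.Agent.N420.PM
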