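import Pool.Agent.N420.PM.CORE
import Pool.Agent.N420.PM.DET
import Pool.Agent.N420.PM.CF
import Pool.Agent.N420.PM.EXP
import Pool.Agent.N420.PM.VAL
import Pool.Agent.N420.PM.SGN
import Pool.Agent.N420.PM.CNTA
import Pool.Agent.N420.PM.CNTB
import Pool.Agent.N420.PM.LEN
import Pool.Agent.N420.PM.NEC
import Pool.Agent.N420.PM.SUF

/-! The main theorem. -/

set_option autoImplicit false

namespace Pool.Agent.N420.PM

theorem main (p : ℕ) (hp : p.Prime) (hp2 : p ≠ 2) (L : Multiset ℕ)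
    (hL : Multiset.card L = p) (hl : ∀ l ∈ L, 1 ≤ l ∧ l ≤ p - 1) :
    (∃ F : Finset (Sym2 (Fin (2 * p))), IsPerfectMatching p F ∧ lengths p F = L) ↔
      Even (Multiset.card (L.filter fun l => Even l)) := by
  constructor
  · rintro ⟨F, hF, rfl⟩
    exact t_NEC p (hp.odd_of_ne_two hp2) F hF
  · intro h
    exact t_SUF (t_CORE t_DET t_EXP (t_VAL t_CF t_GF) t_SGN t_CNTA t_CNTB) t_VT t_LEN p hp hp2 L
      hL hl h

end Pool.Agent.N420.PM
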