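import Pool.Agent.N420.PM.Def

/-!
# Perfect matchings of `K_{2p}` with a prescribed list of edge lengths: statements of the parts

`p` is an odd prime, `N + 2 e + 1 = p`. The vertices of `K_{2p}` are `Bool × ZMod p`. In each of the
two classes we want `p` distinct points, indexed by `Ix N e`: the points of the edges between the
classes (`none` and `inl i`), and the end points `x j`, `x j + f j` of the edges inside the class.

Proof: a weighted sum over all choices of the product of two Vandermonde type determinants is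
expanded (Leibniz); every nonzero term has the same value and the number of nonzero terms is prime
to `p`.
-/

set_option autoImplicit false

namespace Pool.Agent.N420.PM

open Finset Equiv

/-- index set of the `p = N + 2 e + 1` points of one class -/
abbrev Ix (N e : ℕ) := Option (Fin N ⊕ (Fin e × Bool))

/-- the points of one class -/
def pt {p N e : ℕ} (f : Fin e → ZMod p) (c : ZMod p) (a : Fin N → ZMod p) (x : Fin e → ZMod p) :
    Ix N e → ZMod p
  | none => c
  | some (Sum.inl i) => a i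
  | some (Sum.inr (j, false)) => x j
  | some (Sum.inr (j, true)) => x j + f j

/-- the entry with exponent `m` of the row of a point; for the end point `x j + f j` the row of
`x j` is subtracted -/
def row {p N e : ℕ} (f : Fin e → ZMod p) (c : ZMod p) (a : Fin N → ZMod p) (x : Fin e → ZMod p)
    (m : ℕ) : Ix N e → ZMod p
  | none => c ^ m
  | some (Sum.inl i) => a i ^ m
  | some (Sum.inr (j, false)) => x j ^ m
  | some (Sum.inr (j, true)) => (x j + f j) ^ m - x j ^ m

/-- the matrix: rows are the points, columns the exponents `(q k).val`, `q : Ix N e ≃ ZMod p` -/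
def mat {p N e : ℕ} (q : Ix N e → ZMod p) (f : Fin e → ZMod p) (c : ZMod p) (a : Fin N → ZMod p)
    (x : Fin e → ZMod p) : Matrix (Ix N e) (Ix N e) (ZMod p) :=
  Matrix.of fun r k => row f c a x (q k).val r

/-- the sign of a Boolean -/
def sg {p : ℕ} (b : Bool) : ZMod p := bif b then 1 else -1

/-- **DET**: if the determinant does not vanish then the points are distinct. -/
def S_DET : Prop := ∀ (p N e : ℕ) [Fact p.Prime] (q : Ix N e → ZMod p) (f : Fin e → ZMod p)
    (c : ZMod p) (a : Fin N → ZMod p) (x : Fin e → ZMod p),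
    (mat q f c a x).det ≠ 0 → Function.Injective (pt f c a x)

/-- the sum attached to an edge between the classes -/
def Cf {p : ℕ} [NeZero p] (d : ZMod p) (m n : ℕ) : ZMod p :=
  ∑ a : ZMod p, ∑ b : Bool, sg b * (a ^ m * (a + sg b * d) ^ n)

/-- the sum attached to an edge inside a class -/
def Gf {p : ℕ} [NeZero p] (f : ZMod p) (m n : ℕ) : ZMod p :=
  ∑ x : ZMod p, x ^ m * ((x + f) ^ n - x ^ n)

/-- **CF** -/
def S_CF : Prop := ∀ (p : ℕ) [Fact p.Prime] (d : ZMod p) (m n : ℕ), p ≠ 2 →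
    (m + n < p → Cf d m n = 0) ∧ (m + n = p → Cf d m n = -2 * d * n)

/-- **GF** -/
def S_GF : Prop := ∀ (p : ℕ) [Fact p.Prime] (f : ZMod p) (m n : ℕ), p ≠ 2 →
    (m + n < p → Gf f m n = 0) ∧ (m + n = p → Gf f m n = - f * n)

/-- the term of the permutations `σ`, `τ` -/
def term {p N e : ℕ} [NeZero p] (q : Ix N e → ZMod p) (δ : ZMod p) (d : Fin N → ZMod p)
    (f g : Fin e → ZMod p) (σ τ : Perm (Ix N e)) : ZMod p :=
  ((Perm.sign σ : ℤ) : ZMod p) * ((Perm.sign τ : ℤ) : ZMod p) *
    ((0 : ZMod p) ^ (q (σ none)).val * δ ^ (q (τ none)).val) *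
    (∏ i : Fin N, Cf (d i) (q (σ (some (Sum.inl i)))).val (q (τ (some (Sum.inl i)))).val) *
    (∏ j : Fin e, Gf (f j) (q (σ (some (Sum.inr (j, false))))).val
      (q (σ (some (Sum.inr (j, true))))).val) *
    (∏ j : Fin e, Gf (g j) (q (τ (some (Sum.inr (j, false))))).val
      (q (τ (some (Sum.inr (j, true))))).val)

/-- **EXP**: the weighted sum over all choices, expanded by the Leibniz formula. -/
def S_EXP : Prop := ∀ (p N e : ℕ) [Fact p.Prime] (q : Ix N e → ZMod p) (δ : ZMod p)
    (d : Fin N → ZMod p) (f g : Fin e → ZMod p),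
    ∑ a : Fin N → ZMod p, ∑ b : Fin N → Bool, ∑ x : Fin e → ZMod p, ∑ y : Fin e → ZMod p,
      (∏ i, sg (b i)) * ((mat q f 0 a x).det * (mat q g δ (fun i => a i + sg (b i) * d i) y).det)
    = ∑ σ : Perm (Ix N e), ∑ τ : Perm (Ix N e), term q δ d f g σ τ

/-- `σ` pairs the end points of the inner edges -/
def Good {p N e : ℕ} (q : Ix N e → ZMod p) (σ : Perm (Ix N e)) : Prop :=
  q (σ none) = 0 ∧ ∀ j : Fin e,
    q (σ (some (Sum.inr (j, true)))) = - q (σ (some (Sum.inr (j, false))))

/-- `σ` and `τ` match on the outer points -/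
def Match {p N e : ℕ} (q : Ix N e → ZMod p) (σ τ : Perm (Ix N e)) : Prop :=
  ∀ i : Fin N, q (τ (some (Sum.inl i))) = - q (σ (some (Sum.inl i)))

/-- the product of the linear factors -/
def wt {p N e : ℕ} (q : Ix N e → ZMod p) (σ τ : Perm (Ix N e)) : ZMod p :=
  ((Perm.sign σ : ℤ) : ZMod p) * ((Perm.sign τ : ℤ) : ZMod p) *
    (∏ i : Fin N, q (τ (some (Sum.inl i)))) *
    (∏ j : Fin e, q (σ (some (Sum.inr (j, true))))) *
    (∏ j : Fin e, q (τ (some (Sum.inr (j, true)))))

/-- **VAL**: the terms which are not zero. -/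
def S_VAL : Prop := ∀ (p N e : ℕ) [Fact p.Prime] (q : Ix N e ≃ ZMod p) (δ : ZMod p)
    (d : Fin N → ZMod p) (f g : Fin e → ZMod p) (σ τ : Perm (Ix N e)),
    p ≠ 2 → N + 2 * e + 1 = p →
    (¬ (Good q σ ∧ Good q τ ∧ Match q σ τ) → term q δ d f g σ τ = 0) ∧
    (Good q σ ∧ Good q τ ∧ Match q σ τ →
      term q δ d f g σ τ = (∏ i, (-2 * d i)) * (∏ j, (- f j)) * (∏ j, (- g j)) * wt q σ τ)

/-- **SGN**: all these terms agree. -/
def S_SGN : Prop := ∀ (p N e : ℕ) [Fact p.Prime] (q : Ix N e ≃ ZMod p) (σ τ : Perm (Ix N e)),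
    p ≠ 2 → N + 2 * e + 1 = p → Good q σ → Good q τ → Match q σ τ →
    wt q σ τ = -((Perm.sign (Equiv.neg (ZMod p)) : ℤ) : ZMod p)

/-- **CNTA**: the number of good permutations is prime to `p`. -/
def S_CNTA : Prop := ∀ (p N e : ℕ) [Fact p.Prime] (q : Ix N e ≃ ZMod p),
    p ≠ 2 → N + 2 * e + 1 = p → ¬ p ∣ Nat.card {σ : Perm (Ix N e) // Good q σ}

/-- **CNTB**: the number of partners of a good permutation. -/
def S_CNTB : Prop := ∀ (p N e : ℕ) [Fact p.Prime] (q : Ix N e ≃ ZMod p) (σ : Perm (Ix N e)),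
    p ≠ 2 → N + 2 * e + 1 = p → Good q σ →
    Nat.card {τ : Perm (Ix N e) // Good q τ ∧ Match q σ τ} = 2 ^ e * e.factorial

/-- **CORE** -/
def S_CORE : Prop := ∀ (p N e : ℕ) [Fact p.Prime], p ≠ 2 → N + 2 * e + 1 = p →
    ∀ (δ : ZMod p) (d : Fin N → ZMod p) (f g : Fin e → ZMod p),
    (∀ i, d i ≠ 0) → (∀ j, f j ≠ 0) → (∀ j, g j ≠ 0) →
    ∃ (a : Fin N → ZMod p) (b : Fin N → Bool) (x y : Fin e → ZMod p),
      Function.Injective (pt f 0 a x) ∧
      Function.Injective (pt g δ (fun i => a i + sg (b i) * d i) y)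

/-- the vertex of `K_{2p}` with parity `b` (`true`: odd) and residue `u` modulo `p` -/
def vt {p : ℕ} [Fact p.Prime] (b : Bool) (u : ZMod p) : Fin (2 * p) :=
  ⟨if (u.val % 2 = 1 ↔ b = true) then u.val else u.val + p, by
    have h : u.val < p := ZMod.val_lt u
    split_ifs <;> omega⟩

/-- **VT**: the vertices are the pairs (parity, residue). -/
def S_VT : Prop := ∀ (p : ℕ) [Fact p.Prime], p ≠ 2 →
    Function.Bijective (fun z : Bool × ZMod p => vt z.1 z.2)

/-- **LEN**: the length of the edge between two vertices. -/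
def S_LEN : Prop := ∀ (p : ℕ) [Fact p.Prime], p ≠ 2 → ∀ (b b' : Bool) (u u' : ZMod p) (d : ℕ),
    1 ≤ d → d < p → (u' = u + d ∨ u' = u - d) → (Even d ↔ b = b') →
    vt b u ≠ vt b' u' ∧ edgeLen p s(vt b u, vt b' u') = d

/-- **SUF**: the condition is sufficient. -/
def S_SUF : Prop := ∀ (p : ℕ), p.Prime → p ≠ 2 → ∀ L : Multiset ℕ, Multiset.card L = p →
    (∀ l ∈ L, 1 ≤ l ∧ l ≤ p - 1) → Even (Multiset.card (L.filter fun l => Even l)) →
    ∃ F : Finset (Sym2 (Fin (2 * p))), IsPerfectMatching p F ∧ lengths p F = L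

/-- **NEC**: the condition is necessary (`n` odd). -/
def S_NEC : Prop := ∀ (n : ℕ), Odd n → ∀ F : Finset (Sym2 (Fin (2 * n))),
    IsPerfectMatching n F → Even (Multiset.card ((lengths n F).filter fun l => Even l))

end Pool.Agent.N420.PM
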